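import Pool.Agent.Q92.CRem.Fun

/-!
The contact lemma and the local-to-global lemma on segments.
-/

open Set Filter Topology

namespace Q92.CRem

/-- A violated chord inequality produces a strict contact from above with a quadratic polynomial
having a negative direction. -/
lemma exists_contact {f : ℝ → ℝ → ℝ} (hf : Continuous (fun z : ℝ × ℝ => f z.1 z.2))
    {a1 a2 b1 b2 t : ℝ} (ht0 : 0 ≤ t) (ht1 : t ≤ 1)
    (hviol : (1 - t) * f a1 a2 + t * f b1 b2 <
      f ((1 - t) * a1 + t * b1) ((1 - t) * a2 + t * b2)) :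
    ∃ x0 y0 p q A B C e1 e2 ρ : ℝ, 0 < ρ ∧ A * e1 ^ 2 + 2 * B * e1 * e2 + C * e2 ^ 2 < 0 ∧
      Contact f x0 y0 p q A B C ρ := by
  set e1 := b1 - a1 with he1
  set e2 := b2 - a2 with he2
  set N := e1 ^ 2 + e2 ^ 2 with hN
  set fa := f a1 a2 with hfa
  set fb := f b1 b2 with hfb
  have hN0 : 0 < N := by
    rcases (by positivity : 0 ≤ N).lt_or_eq with h | h
    · exact h
    · exfalso
      have h1 : e1 = 0 := by
        have q : e1 ^ 2 = 0 := le_antisymm (by linarith [sq_nonneg e2]) (sq_nonneg _)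
        exact (pow_eq_zero_iff two_ne_zero).1 q
      have h2 : e2 = 0 := by
        have q : e2 ^ 2 = 0 := le_antisymm (by linarith [sq_nonneg e1]) (sq_nonneg _)
        exact (pow_eq_zero_iff two_ne_zero).1 q
      have h3 : b1 = a1 := by linarith
      have h4 : b2 = a2 := by linarith
      rw [hfa, hfb, h3, h4] at hviol
      rw [show (1 - t) * a1 + t * a1 = a1 by ring, show (1 - t) * a2 + t * a2 = a2 by ring] at hviol
      linarith
  -- the difference function in the adapted coordinates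
  set D : ℝ × ℝ → ℝ := fun w => f (a1 + w.1 * e1 - w.2 * e2) (a2 + w.1 * e2 + w.2 * e1) -
    ((1 - w.1) * fa + w.1 * fb) with hD
  have hDc : Continuous D := by
    refine Continuous.sub ?_ (by fun_prop)
    exact hf.comp (by fun_prop : Continuous (fun w : ℝ × ℝ =>
      (a1 + w.1 * e1 - w.2 * e2, a2 + w.1 * e2 + w.2 * e1)))
  have hD00 : D (0, 0) = 0 := by simp [hD, hfa]
  have hD10 : D (1, 0) = 0 := by
    simp only [hD]
    rw [show a1 + 1 * e1 - 0 * e2 = b1 by rw [he1]; ring,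
      show a2 + 1 * e2 + 0 * e1 = b2 by rw [he2]; ring]
    ring
  set D0 := D (t, 0) with hD0
  have hD0pos : 0 < D0 := by
    simp only [hD0, hD]
    rw [show a1 + t * e1 - 0 * e2 = (1 - t) * a1 + t * b1 by rw [he1]; ring,
      show a2 + t * e2 + 0 * e1 = (1 - t) * a2 + t * b2 by rw [he2]; ring]
    linarith
  obtain ⟨u1, hu1, hu1', hnear⟩ : ∃ u1 > 0, u1 ≤ 1 ∧ ∀ u, |u| ≤ u1 →
      D (0, u) < D0 / 2 ∧ D (1, u) < D0 / 2 := by
    have c1 : Continuous (fun u : ℝ => D (0, u)) := hDc.comp (by fun_prop)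
    have c2 : Continuous (fun u : ℝ => D (1, u)) := hDc.comp (by fun_prop)
    obtain ⟨δ1, hδ1, h1⟩ := (Metric.continuous_iff.1 c1) 0 (D0 / 2) (by linarith)
    obtain ⟨δ2, hδ2, h2⟩ := (Metric.continuous_iff.1 c2) 0 (D0 / 2) (by linarith)
    refine ⟨min (min (δ1 / 2) (δ2 / 2)) 1, by positivity, min_le_right _ _, fun u hu => ?_⟩
    have k1 : |u| ≤ δ1 / 2 := hu.trans ((min_le_left _ _).trans (min_le_left _ _))
    have k2 : |u| ≤ δ2 / 2 := hu.trans ((min_le_left _ _).trans (min_le_right _ _))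
    have g1 := h1 u (by rw [Real.dist_eq, sub_zero]; linarith)
    have g2 := h2 u (by rw [Real.dist_eq, sub_zero]; linarith)
    rw [Real.dist_eq, hD00, sub_zero, abs_lt] at g1
    rw [Real.dist_eq, hD10, sub_zero, abs_lt] at g2
    exact ⟨g1.2, g2.2⟩
  set R : Set (ℝ × ℝ) := Icc 0 1 ×ˢ Icc (-1) 1 with hR
  have hRc : IsCompact R := isCompact_Icc.prod isCompact_Icc
  obtain ⟨K0, hK0⟩ : ∃ K0 : ℝ, ∀ w ∈ R, D w ≤ K0 := by
    obtain ⟨K0, h⟩ := (hRc.image hDc).bddAbove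
    exact ⟨K0, fun w hw => h ⟨w, hw, rfl⟩⟩
  have hK0' : 0 ≤ K0 := by
    rw [← hD00]
    exact hK0 (0, 0) ⟨⟨le_rfl, zero_le_one⟩, ⟨by norm_num, zero_le_one⟩⟩
  set Λ := (K0 + 1) / u1 ^ 2 with hΛ
  have hΛu : Λ * u1 ^ 2 = K0 + 1 := by rw [hΛ]; field_simp
  have hΛ0 : 0 < Λ := by positivity
  have hΛ1 : K0 + 1 ≤ Λ := by
    rw [← hΛu]
    have : u1 ^ 2 ≤ 1 := pow_le_one₀ hu1.le hu1'
    nlinarith
  set G : ℝ × ℝ → ℝ := fun w => D w - D0 * (w.1 * (1 - w.1)) - Λ * w.2 ^ 2 with hG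
  have hGc : Continuous G := by
    simp only [hG]
    exact (hDc.sub (by fun_prop)).sub (by fun_prop)
  obtain ⟨⟨s0, u0⟩, hw0, hmax⟩ := hRc.exists_isMaxOn
    ⟨(0, 0), ⟨⟨le_rfl, zero_le_one⟩, ⟨by norm_num, zero_le_one⟩⟩⟩ hGc.continuousOn
  have hmax' : ∀ s u, 0 ≤ s → s ≤ 1 → -1 ≤ u → u ≤ 1 → G (s, u) ≤ G (s0, u0) := by
    intro s u h1 h2 h3 h4
    exact hmax (⟨⟨h1, h2⟩, ⟨h3, h4⟩⟩ : (s, u) ∈ R)
  obtain ⟨⟨hs0, hs1⟩, ⟨hu0, hu0'⟩⟩ := hw0
  simp only at hs0 hs1 hu0 hu0'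
  have hbig : 3 * D0 / 4 ≤ G (s0, u0) := by
    refine le_trans ?_ (hmax' t 0 ht0 ht1 (by norm_num) zero_le_one)
    simp only [hG, ← hD0]
    have := mul_le_mul_of_nonneg_left (mul_one_sub_le t) hD0pos.le
    linarith
  have hedge : ∀ u, -1 ≤ u → u ≤ 1 → G (0, u) < 3 * D0 / 4 ∧ G (1, u) < 3 * D0 / 4 := by
    intro u h3 h4
    rcases le_or_gt |u| u1 with h | h
    · obtain ⟨k1, k2⟩ := hnear u h
      have : 0 ≤ Λ * u ^ 2 := by positivity
      simp only [hG]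
      constructor <;> nlinarith
    · have h5 : u1 ^ 2 ≤ u ^ 2 := by
        rw [← sq_abs u]; exact pow_le_pow_left₀ hu1.le h.le 2
      have h6 : Λ * u1 ^ 2 ≤ Λ * u ^ 2 := mul_le_mul_of_nonneg_left h5 hΛ0.le
      have k1 := hK0 (0, u) ⟨⟨le_rfl, zero_le_one⟩, ⟨h3, h4⟩⟩
      have k2 := hK0 (1, u) ⟨⟨zero_le_one, le_rfl⟩, ⟨h3, h4⟩⟩
      simp only [hG]
      constructor <;> nlinarith
  have hs0' : 0 < s0 := by
    refine lt_of_le_of_ne hs0 fun h => ?_
    have := (hedge u0 hu0 hu0').1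
    rw [← h] at hbig
    linarith
  have hs1' : s0 < 1 := by
    refine lt_of_le_of_ne hs1 fun h => ?_
    have := (hedge u0 hu0 hu0').2
    rw [h] at hbig
    linarith
  have hu0'' : |u0| < 1 := by
    refine lt_of_le_of_ne (abs_le.2 ⟨hu0, hu0'⟩) fun h => ?_
    have h5 : u0 ^ 2 = 1 := by rw [← sq_abs, h]; norm_num
    have k1 := hK0 (s0, u0) ⟨⟨hs0, hs1⟩, ⟨hu0, hu0'⟩⟩
    have h6 : 0 ≤ D0 * (s0 * (1 - s0)) := by
      have : 0 ≤ 1 - s0 := by linarith
      positivity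
    simp only [hG, h5] at hbig
    linarith
  -- the contact point
  set x0 := a1 + s0 * e1 - u0 * e2 with hx0
  set y0 := a2 + s0 * e2 + u0 * e1 with hy0
  set m := min (min s0 (1 - s0)) (1 - |u0|) with hm
  have hm0 : 0 < m := lt_min (lt_min hs0' (by linarith)) (by linarith)
  set T := |e1| + |e2| + 1 with hT
  have hT0 : 0 < T := by positivity
  set ρ := m * N / T with hρ
  have hρ0 : 0 < ρ := by positivity
  set η := D0 / (2 * N) with hη
  have hη0 : 0 < η := by positivity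
  set l := fb - fa + D0 * (1 - 2 * s0) with hl
  refine ⟨x0, y0, (l * e1 - 2 * Λ * u0 * e2) / N, (l * e2 + 2 * Λ * u0 * e1) / N,
    (-D0 * e1 ^ 2 + Λ * e2 ^ 2) / N ^ 2 + η, (-D0 * e1 * e2 - Λ * e1 * e2) / N ^ 2,
    (-D0 * e2 ^ 2 + Λ * e1 ^ 2) / N ^ 2 + η, e1, e2, ρ, hρ0, ?_, ?_⟩
  · have : ((-D0 * e1 ^ 2 + Λ * e2 ^ 2) / N ^ 2 + η) * e1 ^ 2 +
        2 * ((-D0 * e1 * e2 - Λ * e1 * e2) / N ^ 2) * e1 * e2 +
        ((-D0 * e2 ^ 2 + Λ * e1 ^ 2) / N ^ 2 + η) * e2 ^ 2 = -D0 / 2 := by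
      have h1 : ((-D0 * e1 ^ 2 + Λ * e2 ^ 2) / N ^ 2 + η) * e1 ^ 2 +
        2 * ((-D0 * e1 * e2 - Λ * e1 * e2) / N ^ 2) * e1 * e2 +
        ((-D0 * e2 ^ 2 + Λ * e1 ^ 2) / N ^ 2 + η) * e2 ^ 2 =
        -D0 * (e1 ^ 2 + e2 ^ 2) ^ 2 / N ^ 2 + η * (e1 ^ 2 + e2 ^ 2) := by ring
      rw [h1, ← hN, hη]
      field_simp
      ring
    rw [this]
    linarith
  · intro x y hx hy hne
    set ds := ((x - x0) * e1 + (y - y0) * e2) / N with hds
    set du := (-(x - x0) * e2 + (y - y0) * e1) / N with hdu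
    have hdx : x - x0 = ds * e1 - du * e2 := by
      rw [hds, hdu]
      field_simp
      rw [hN]; ring
    have hdy : y - y0 = ds * e2 + du * e1 := by
      rw [hds, hdu]
      field_simp
      rw [hN]; ring
    have hbd : ∀ c d : ℝ, |c| + |d| ≤ T → |((x - x0) * c + (y - y0) * d) / N| ≤ m := by
      intro c d hcd
      rw [abs_div, abs_of_pos hN0, div_le_iff₀ hN0]
      calc |(x - x0) * c + (y - y0) * d| ≤ |x - x0| * |c| + |y - y0| * |d| := by
            refine (abs_add_le _ _).trans ?_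
            rw [abs_mul, abs_mul]
        _ ≤ ρ * |c| + ρ * |d| := add_le_add (mul_le_mul_of_nonneg_right hx (abs_nonneg _))
            (mul_le_mul_of_nonneg_right hy (abs_nonneg _))
        _ = ρ * (|c| + |d|) := by ring
        _ ≤ ρ * T := mul_le_mul_of_nonneg_left hcd hρ0.le
        _ = m * N := by rw [hρ]; field_simp
    have hds' : |ds| ≤ m := hbd e1 e2 (by rw [hT]; linarith)
    have hdu' : |du| ≤ m := by
      have := hbd (-e2) e1 (by rw [hT, abs_neg]; linarith)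
      rw [hdu]
      convert this using 3
      ring
    have hms : m ≤ s0 := (min_le_left _ _).trans (min_le_left _ _)
    have hms' : m ≤ 1 - s0 := (min_le_left _ _).trans (min_le_right _ _)
    have hmu : m ≤ 1 - |u0| := min_le_right _ _
    rw [abs_le] at hds' hdu'
    have hau := abs_le.1 (le_refl |u0|)
    have key := hmax' (s0 + ds) (u0 + du) (by linarith) (by linarith) (by linarith) (by linarith)
    simp only [hG, hD] at key
    have ex : a1 + (s0 + ds) * e1 - (u0 + du) * e2 = x := by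
      have : x = x0 + (ds * e1 - du * e2) := by linarith
      rw [this, hx0]; ring
    have ey : a2 + (s0 + ds) * e2 + (u0 + du) * e1 = y := by
      have : y = y0 + (ds * e2 + du * e1) := by linarith
      rw [this, hy0]; ring
    rw [ex, ey, ← hx0, ← hy0] at key
    have hpos : 0 < η * ((x - x0) ^ 2 + (y - y0) ^ 2) := by
      refine mul_pos hη0 ?_
      by_contra hcon
      push Not at hcon
      apply hne
      constructor
      · have q : (x - x0) ^ 2 = 0 :=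
          le_antisymm (by linarith [sq_nonneg (y - y0)]) (sq_nonneg _)
        have := (pow_eq_zero_iff two_ne_zero).1 q
        linarith
      · have q : (y - y0) ^ 2 = 0 :=
          le_antisymm (by linarith [sq_nonneg (x - x0)]) (sq_nonneg _)
        have := (pow_eq_zero_iff two_ne_zero).1 q
        linarith
    have halg : (l * e1 - 2 * Λ * u0 * e2) / N * (x - x0) +
        (l * e2 + 2 * Λ * u0 * e1) / N * (y - y0) +
        ((-D0 * e1 ^ 2 + Λ * e2 ^ 2) / N ^ 2 + η) * (x - x0) ^ 2 +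
        2 * ((-D0 * e1 * e2 - Λ * e1 * e2) / N ^ 2) * (x - x0) * (y - y0) +
        ((-D0 * e2 ^ 2 + Λ * e1 ^ 2) / N ^ 2 + η) * (y - y0) ^ 2 =
        l * ds + 2 * Λ * u0 * du - D0 * ds ^ 2 + Λ * du ^ 2 +
          η * ((x - x0) ^ 2 + (y - y0) ^ 2) := by
      rw [hds, hdu]
      field_simp
      ring
    have hgoal : f x0 y0 + (l * e1 - 2 * Λ * u0 * e2) / N * (x - x0) +
        (l * e2 + 2 * Λ * u0 * e1) / N * (y - y0) +
        ((-D0 * e1 ^ 2 + Λ * e2 ^ 2) / N ^ 2 + η) * (x - x0) ^ 2 +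
        2 * ((-D0 * e1 * e2 - Λ * e1 * e2) / N ^ 2) * (x - x0) * (y - y0) +
        ((-D0 * e2 ^ 2 + Λ * e1 ^ 2) / N ^ 2 + η) * (y - y0) ^ 2 =
        f x0 y0 + (l * ds + 2 * Λ * u0 * du - D0 * ds ^ 2 + Λ * du ^ 2 +
          η * ((x - x0) ^ 2 + (y - y0) ^ 2)) := by
      rw [← halg]; ring
    rw [hgoal, hl]
    linear_combination key + hpos

/-- Midpoint convexity at small scales implies the chord inequality. -/
lemma local_to_global {φ : ℝ → ℝ} (hφ : Continuous φ)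
    (hloc : ∀ s, 0 < s → s < 1 → ∃ ε > 0, ∀ h, 0 < h → h < ε → 2 * φ s ≤ φ (s + h) + φ (s - h))
    {s : ℝ} (hs0 : 0 ≤ s) (hs1 : s ≤ 1) : φ s ≤ (1 - s) * φ 0 + s * φ 1 := by
  by_contra hcon
  push Not at hcon
  set D := φ s - ((1 - s) * φ 0 + s * φ 1) with hD
  have hD0 : 0 < D := by linarith
  set G : ℝ → ℝ := fun u => φ u - ((1 - u) * φ 0 + u * φ 1) - D * (u * (1 - u)) with hG
  have hGc : Continuous G := by simp only [hG]; fun_prop
  obtain ⟨s0, hs0m, hmax⟩ := isCompact_Icc.exists_isMaxOn (nonempty_Icc.2 zero_le_one)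
    (hGc.continuousOn (s := Icc (0 : ℝ) 1))
  have hbig : 3 * D / 4 ≤ G s0 := by
    refine le_trans ?_ (hmax (⟨hs0, hs1⟩ : s ∈ Icc (0 : ℝ) 1))
    simp only [hG]
    have := mul_le_mul_of_nonneg_left (mul_one_sub_le s) hD0.le
    linarith
  have hG0 : G 0 = 0 := by simp [hG]
  have hG1 : G 1 = 0 := by simp [hG]
  have h0 : 0 < s0 := by
    refine lt_of_le_of_ne hs0m.1 fun h => ?_
    rw [← h, hG0] at hbig; linarith
  have h1 : s0 < 1 := by
    refine lt_of_le_of_ne hs0m.2 fun h => ?_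
    rw [h, hG1] at hbig; linarith
  obtain ⟨ε, hε, hl⟩ := hloc s0 h0 h1
  set h := min (ε / 2) (min s0 (1 - s0)) with hh
  have hh0 : 0 < h := lt_min (by positivity) (lt_min h0 (by linarith))
  have hh1 : h ≤ ε / 2 := min_le_left _ _
  have hh2 : h ≤ s0 := (min_le_right _ _).trans (min_le_left _ _)
  have hh3 : h ≤ 1 - s0 := (min_le_right _ _).trans (min_le_right _ _)
  have k1 : G (s0 + h) ≤ G s0 := hmax (⟨by linarith, by linarith⟩ : s0 + h ∈ Icc (0 : ℝ) 1)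
  have k2 : G (s0 - h) ≤ G s0 := hmax (⟨by linarith, by linarith⟩ : s0 - h ∈ Icc (0 : ℝ) 1)
  have k3 := hl h hh0 (by linarith)
  simp only [hG] at k1 k2
  have k4 : 0 < D * h ^ 2 := by positivity
  nlinarith

end Q92.CRem
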