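import Pool.Agent.Q92.CRem.Local

/-!
The function `g (t) = ∑ 12^{-n} φ (4^n t)`, `φ` = distance to the nearest even integer.
-/

open Set Filter Topology

namespace Q92.CRem

/-- distance to the nearest even integer -/
noncomputable def phi (t : ℝ) : ℝ := |t - 2 * (round (t / 2) : ℝ)|

lemma phi_nonneg (t : ℝ) : 0 ≤ phi t := abs_nonneg _

lemma phi_eq_two (t : ℝ) : phi t = 2 * |t / 2 - (round (t / 2) : ℝ)| := by
  unfold phi
  rw [show t - 2 * (round (t / 2) : ℝ) = 2 * (t / 2 - (round (t / 2) : ℝ)) by ring, abs_mul]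
  norm_num

lemma phi_le_one (t : ℝ) : phi t ≤ 1 := by
  rw [phi_eq_two]
  have := abs_sub_round (t / 2)
  linarith

lemma phi_le (t : ℝ) (n : ℤ) : phi t ≤ |t - 2 * n| := by
  rw [phi_eq_two]
  have := round_le (t / 2) n
  have h2 : |t - 2 * (n : ℝ)| = 2 * |t / 2 - n| := by
    rw [show t - 2 * (n : ℝ) = 2 * (t / 2 - n) by ring, abs_mul]; norm_num
  rw [h2]
  linarith

lemma phi_lip (x y : ℝ) : phi x ≤ phi y + |x - y| := by
  have h1 := phi_le x (round (y / 2))
  have h2 : |x - 2 * (round (y / 2) : ℝ)| ≤ |y - 2 * (round (y / 2) : ℝ)| + |x - y| := by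
    have : x - 2 * (round (y / 2) : ℝ) = (y - 2 * (round (y / 2) : ℝ)) + (x - y) := by ring
    rw [this]; exact abs_add_le _ _
  exact h1.trans h2

lemma phi_lip' (x y : ℝ) : |phi x - phi y| ≤ |x - y| := by
  have h1 := phi_lip x y
  have h2 := phi_lip y x
  rw [abs_sub_comm y x] at h2
  rw [abs_le]; constructor <;> linarith

lemma phi_even_near (n : ℤ) {t : ℝ} (ht : |t - 2 * n| ≤ 1) : phi t = |t - 2 * n| := by
  refine le_antisymm (phi_le t n) ?_
  unfold phi
  set m := round (t / 2) with hm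
  by_cases h : m = n
  · rw [h]
  · have h1 : (1 : ℝ) ≤ |((m : ℝ) - n)| := by
      have : 1 ≤ |m - n| := Int.one_le_abs (sub_ne_zero.2 h)
      exact_mod_cast this
    have h2 : |2 * ((m : ℝ) - n)| ≤ |t - 2 * m| + |t - 2 * n| := by
      have e : 2 * ((m : ℝ) - n) = -(t - 2 * m) + (t - 2 * n) := by ring
      rw [e]
      refine (abs_add_le _ _).trans ?_
      rw [abs_neg]
    rw [abs_mul, abs_of_pos (by norm_num : (0 : ℝ) < 2)] at h2
    linarith

lemma phi_even (n : ℤ) : phi (2 * n) = 0 := by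
  rw [phi_even_near n (by simp)]; simp

lemma phi_odd_near (n : ℤ) {t : ℝ} (ht : |t - (2 * n + 1)| ≤ 1) :
    phi t = 1 - |t - (2 * n + 1)| := by
  rw [abs_le] at ht
  rcases le_total t (2 * n + 1) with h | h
  · rw [phi_even_near n (by rw [abs_le]; constructor <;> linarith),
      abs_of_nonneg (by linarith), abs_of_nonpos (by linarith)]
    ring
  · have h1 : |t - 2 * ((n + 1 : ℤ) : ℝ)| ≤ 1 := by
      push_cast
      rw [abs_le]; constructor <;> linarith
    rw [phi_even_near (n + 1) h1]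
    push_cast
    rw [abs_of_nonpos (by linarith), abs_of_nonneg (by linarith)]
    ring

lemma phi_neg (t : ℝ) : phi (-t) = phi t := by
  have key : ∀ t : ℝ, phi (-t) ≤ phi t := by
    intro t
    have := phi_le (-t) (-round (t / 2))
    refine this.trans (le_of_eq ?_)
    unfold phi
    rw [← abs_neg]
    congr 1
    push_cast
    ring
  refine le_antisymm (key t) ?_
  have := key (-t)
  rwa [neg_neg] at this

/-- `phi` is affine between consecutive integers -/
lemma phi_affine (i : ℤ) : ∃ a b : ℝ, ∀ t : ℝ, (i : ℝ) ≤ t → t ≤ i + 1 → phi t = a + b * t := by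
  rcases Int.even_or_odd' i with ⟨n, rfl | rfl⟩
  · refine ⟨-(2 * n), 1, fun t h1 h2 => ?_⟩
    push_cast at h1 h2
    rw [phi_even_near n (by rw [abs_le]; constructor <;> linarith), abs_of_nonneg (by linarith)]
    ring
  · refine ⟨2 * n + 2, -1, fun t h1 h2 => ?_⟩
    push_cast at h1 h2
    rw [phi_odd_near n (by rw [abs_le]; constructor <;> linarith), abs_of_nonneg (by linarith)]
    ring

/-- The function. -/
noncomputable def g (t : ℝ) : ℝ := ∑' n : ℕ, (1 / 12 : ℝ) ^ n * phi (4 ^ n * t)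

lemma g_summable (t : ℝ) : Summable (fun n : ℕ => (1 / 12 : ℝ) ^ n * phi (4 ^ n * t)) := by
  refine Summable.of_nonneg_of_le (fun n => mul_nonneg (by positivity) (phi_nonneg _))
    (fun n => ?_) (summable_geometric_of_lt_one (r := (1 / 12 : ℝ)) (by norm_num) (by norm_num))
  have h : (0 : ℝ) ≤ (1 / 12) ^ n := by positivity
  have := mul_le_mul_of_nonneg_left (phi_le_one (4 ^ n * t)) h
  simpa using this

lemma g_eq (t : ℝ) : g t = phi t + 1 / 12 * g (4 * t) := by
  unfold g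
  rw [(g_summable t).tsum_eq_zero_add, ← tsum_mul_left]
  congr 1
  · simp
  · refine tsum_congr fun n => ?_
    rw [pow_succ, pow_succ]
    rw [show (4 : ℝ) ^ n * 4 * t = 4 ^ n * (4 * t) by ring]
    ring

lemma g_nonneg (t : ℝ) : 0 ≤ g t :=
  tsum_nonneg fun n => mul_nonneg (by positivity) (phi_nonneg _)

lemma g_lip (x y : ℝ) : |g x - g y| ≤ 3 / 2 * |x - y| := by
  unfold g
  rw [← (g_summable x).tsum_sub (g_summable y)]
  have hgeo : HasSum (fun n : ℕ => (1 / 3 : ℝ) ^ n * |x - y|) (3 / 2 * |x - y|) := by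
    have := (hasSum_geometric_of_lt_one (r := (1 / 3 : ℝ)) (by norm_num) (by norm_num)).mul_right
      |x - y|
    norm_num at this
    norm_num
    exact this
  have hb : ∀ n : ℕ, ‖(1 / 12 : ℝ) ^ n * phi (4 ^ n * x) - (1 / 12 : ℝ) ^ n * phi (4 ^ n * y)‖ ≤
      (1 / 3 : ℝ) ^ n * |x - y| := by
    intro n
    rw [← mul_sub, norm_mul, Real.norm_eq_abs, Real.norm_eq_abs,
      abs_of_pos (by positivity : (0 : ℝ) < (1 / 12) ^ n)]
    have h1 := phi_lip' (4 ^ n * x) (4 ^ n * y)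
    rw [← mul_sub, abs_mul, abs_of_pos (by positivity : (0 : ℝ) < 4 ^ n)] at h1
    have h2 : (1 / 12 : ℝ) ^ n * (4 ^ n * |x - y|) = (1 / 3) ^ n * |x - y| := by
      rw [← mul_assoc, ← mul_pow]; norm_num
    rw [← h2]
    exact mul_le_mul_of_nonneg_left h1 (by positivity)
  have := tsum_of_norm_bounded hgeo hb
  simpa using this

lemma g_continuous : Continuous g := by
  have : LipschitzWith (3 / 2) g := by
    refine LipschitzWith.of_dist_le_mul fun x y => ?_
    rw [Real.dist_eq, Real.dist_eq]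
    simpa using g_lip x y
  exact this.continuous

lemma g_neg (t : ℝ) : g (-t) = g t := by
  unfold g
  refine tsum_congr fun n => ?_
  rw [show (4 : ℝ) ^ n * -t = -(4 ^ n * t) by ring, phi_neg]

lemma g_even (n : ℤ) : g (2 * n) = 0 := by
  unfold g
  rw [← tsum_zero (α := ℝ) (β := ℕ)]
  refine tsum_congr fun k => ?_
  have : (4 : ℝ) ^ k * (2 * n) = 2 * ((4 ^ k * n : ℤ) : ℝ) := by push_cast; ring
  rw [this, phi_even, mul_zero]

/-- corners at integers -/
lemma touch_int (j : ℤ) : ∃ σ τ : ℝ, (τ = 1 ∨ τ = -1) ∧ ∀ x : ℝ, |x - j| ≤ 1 →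
    1 / 2 * |x - j| ≤ τ * (g j + σ * (x - j) - g x) := by
  have h4j : g (4 * (j : ℝ)) = 0 := by
    have := g_even (2 * j)
    push_cast at this
    rw [← this]; congr 1; ring
  rcases Int.even_or_odd' j with ⟨n, hn | hn⟩
  · refine ⟨0, -1, Or.inr rfl, fun x hx => ?_⟩
    have hj : (j : ℝ) = 2 * n := by rw [hn]; push_cast; ring
    have h1 : g j = 0 := by rw [hj]; exact g_even n
    have h2 := g_eq x
    have h3 := g_nonneg (4 * x)
    rw [hj] at hx
    have h4 := phi_even_near n hx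
    rw [h1, hj]
    have := abs_nonneg (x - 2 * (n : ℝ))
    linarith
  · refine ⟨0, 1, Or.inl rfl, fun x hx => ?_⟩
    have hj : (j : ℝ) = 2 * n + 1 := by rw [hn]; push_cast; ring
    have h1 : g j = 1 := by
      rw [g_eq, h4j, hj, phi_odd_near n (by simp)]
      simp
    have h2 := g_eq x
    have h3 := g_lip (4 * x) (4 * j)
    rw [h4j, sub_zero, abs_of_nonneg (g_nonneg _), ← mul_sub, abs_mul,
      abs_of_pos (by norm_num : (0 : ℝ) < 4)] at h3
    rw [hj] at hx h3
    have h4 := phi_odd_near n hx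
    rw [h1, hj]
    linarith

/-- corners at all `j / 4 ^ k` -/
lemma g_touch : Touch g := by
  intro k
  induction k with
  | zero =>
    intro j
    obtain ⟨σ, τ, hτ, h⟩ := touch_int j
    refine ⟨σ, τ, hτ, fun x hx => ?_⟩
    simp only [pow_zero, div_one, mul_one] at hx ⊢
    exact h x hx
  | succ k ih =>
    intro j
    by_cases hdvd : (4 ^ (k + 1) : ℤ) ∣ j
    · obtain ⟨i, hi⟩ := hdvd
      have hji : (j : ℝ) / 4 ^ (k + 1) = i := by
        rw [hi]; push_cast; field_simp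
      obtain ⟨σ, τ, hτ, h⟩ := touch_int i
      refine ⟨σ, τ, hτ, fun x hx => ?_⟩
      rw [hji] at hx ⊢
      have h1 : (1 : ℝ) / 4 ^ (k + 1) ≤ 1 := by
        rw [div_le_one (by positivity)]
        exact one_le_pow₀ (by norm_num)
      have h2 := h x (hx.trans h1)
      refine le_trans ?_ h2
      have h3 : (1 / 3 : ℝ) ^ (k + 1) ≤ 1 := pow_le_one₀ (by norm_num) (by norm_num)
      have h4 := abs_nonneg (x - (i : ℝ))
      nlinarith
    · obtain ⟨σ, τ, hτ, h⟩ := ih j
      set i : ℤ := j / 4 ^ (k + 1) with hi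
      have hpos : (0 : ℤ) < 4 ^ (k + 1) := by positivity
      have hm0 : 0 < j % 4 ^ (k + 1) :=
        lt_of_le_of_ne (Int.emod_nonneg _ hpos.ne') (fun hh => hdvd (Int.dvd_of_emod_eq_zero hh.symm))
      have hm1 : j % 4 ^ (k + 1) < 4 ^ (k + 1) := Int.emod_lt_of_pos _ hpos
      have hdm := Int.mul_ediv_add_emod j (4 ^ (k + 1))
      rw [← hi] at hdm
      have hlow : (i : ℝ) + 1 / 4 ^ (k + 1) ≤ j / 4 ^ (k + 1) := by
        have h1 : (4 ^ (k + 1) : ℤ) * i + 1 ≤ j := by linarith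
        have h2 : ((4 : ℝ) ^ (k + 1)) * i + 1 ≤ j := by exact_mod_cast h1
        rw [le_div_iff₀ (by positivity)]
        have h3 : ((i : ℝ) + 1 / 4 ^ (k + 1)) * 4 ^ (k + 1) = 4 ^ (k + 1) * i + 1 := by
          field_simp
        rw [h3]; exact h2
      have hhigh : (j : ℝ) / 4 ^ (k + 1) ≤ i + 1 - 1 / 4 ^ (k + 1) := by
        have h1 : j ≤ (4 ^ (k + 1) : ℤ) * i + 4 ^ (k + 1) - 1 := by linarith
        have h2 : (j : ℝ) ≤ ((4 : ℝ) ^ (k + 1)) * i + 4 ^ (k + 1) - 1 := by exact_mod_cast h1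
        rw [div_le_iff₀ (by positivity)]
        have h3 : ((i : ℝ) + 1 - 1 / 4 ^ (k + 1)) * 4 ^ (k + 1) =
            4 ^ (k + 1) * i + 4 ^ (k + 1) - 1 := by
          field_simp
        rw [h3]; exact h2
      obtain ⟨a, b, hab⟩ := phi_affine i
      set c : ℝ := j / 4 ^ (k + 1) with hc
      have h4c : (j : ℝ) / 4 ^ k = 4 * c := by rw [hc, pow_succ]; field_simp
      rw [h4c] at h
      refine ⟨τ * (τ * b) + σ / 3, τ, hτ, fun x hx => ?_⟩
      have hτ2 : τ * τ = 1 := by rcases hτ with rfl | rfl <;> norm_num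
      have hx4 : |4 * x - 4 * c| ≤ 1 / 4 ^ k := by
        rw [← mul_sub, abs_mul, abs_of_pos (by norm_num : (0 : ℝ) < 4)]
        have : (1 : ℝ) / 4 ^ k = 4 * (1 / 4 ^ (k + 1)) := by rw [pow_succ]; field_simp
        rw [this]
        linarith
      have h1 := h (4 * x) hx4
      rw [← mul_sub, abs_mul, abs_of_pos (by norm_num : (0 : ℝ) < 4)] at h1
      have hpos1 : (0 : ℝ) ≤ 1 / 4 ^ (k + 1) := by positivity
      rw [abs_le] at hx
      have e1 := hab x (by linarith [hx.1]) (by linarith [hx.2])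
      have e2 := hab c (by linarith) (by linarith)
      rw [g_eq x, g_eq c, e1, e2]
      have e3 : τ * (τ * b) = b := by rw [← mul_assoc, hτ2, one_mul]
      rw [e3, pow_succ]
      linear_combination h1 / 12

/-- One-sided secant slopes are almost constant near a point. -/
lemma right_secant (k : ℕ) : ∀ t0 : ℝ, ∃ ρ > 0, ∃ s : ℝ, ∀ x x', t0 ≤ x → x ≤ x' → x' ≤ t0 + ρ →
    |g x' - g x - s * (x' - x)| ≤ 3 / 2 * (1 / 3) ^ k * (x' - x) := by
  induction k with
  | zero =>
    intro t0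
    refine ⟨1, one_pos, 0, fun x x' h1 h2 h3 => ?_⟩
    have := g_lip x' x
    rw [abs_of_nonneg (by linarith : 0 ≤ x' - x)] at this
    simpa using this
  | succ k ih =>
    intro t0
    obtain ⟨ρ, hρ, s, hs⟩ := ih (4 * t0)
    obtain ⟨a, b, hab⟩ := phi_affine ⌊t0⌋
    have h1 : t0 < ⌊t0⌋ + 1 := Int.lt_floor_add_one t0
    have h0 : (⌊t0⌋ : ℝ) ≤ t0 := Int.floor_le t0
    refine ⟨min (ρ / 4) (⌊t0⌋ + 1 - t0), lt_min (by positivity) (by linarith), b + s / 3,
      fun x x' hx hxx' hx' => ?_⟩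
    have h2 := min_le_left (ρ / 4) (⌊t0⌋ + 1 - t0)
    have h3 := min_le_right (ρ / 4) (⌊t0⌋ + 1 - t0)
    have h4 := hs (4 * x) (4 * x') (by linarith) (by linarith) (by linarith)
    have e1 := hab x (by linarith) (by linarith)
    have e2 := hab x' (by linarith) (by linarith)
    rw [g_eq x, g_eq x', e1, e2, pow_succ]
    have e3 : a + b * x' + 1 / 12 * g (4 * x') - (a + b * x + 1 / 12 * g (4 * x)) -
        (b + s / 3) * (x' - x) = 1 / 12 * (g (4 * x') - g (4 * x) - s * (4 * x' - 4 * x)) := by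
      ring
    rw [e3, abs_mul, abs_of_pos (by norm_num : (0 : ℝ) < 1 / 12)]
    linarith

lemma left_secant (k : ℕ) (t0 : ℝ) : ∃ ρ > 0, ∃ s : ℝ, ∀ x x', t0 - ρ ≤ x → x ≤ x' → x' ≤ t0 →
    |g x' - g x - s * (x' - x)| ≤ 3 / 2 * (1 / 3) ^ k * (x' - x) := by
  obtain ⟨ρ, hρ, s, hs⟩ := right_secant k (-t0)
  refine ⟨ρ, hρ, -s, fun x x' h1 h2 h3 => ?_⟩
  have := hs (-x') (-x) (by linarith) (by linarith) (by linarith)
  rw [g_neg, g_neg] at this
  have e : |g x' - g x - -s * (x' - x)| = |g x - g x' - s * (-x - -x')| := by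
    rw [← abs_neg]; congr 1; ring
  rw [e]
  have e2 : x' - x = -x - -x' := by ring
  rw [e2]
  exact this

end Q92.CRem
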