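import Pool.Agent.Q92.CRem.Step

/-!
The local argument at a point of the graph.
-/

open Set Filter Topology

namespace Q92.CRem

/-- `f` satisfies the chord inequality on all segments avoiding the graph of `h`. -/
def SegProp (f : ℝ → ℝ → ℝ) (h : ℝ → ℝ) : Prop :=
  ∀ a1 a2 b1 b2 : ℝ, (∀ s, 0 ≤ s → s ≤ 1 →
    h ((1 - s) * a1 + s * b1) ≠ (1 - s) * a2 + s * b2) →
    ∀ s, 0 ≤ s → s ≤ 1 → f ((1 - s) * a1 + s * b1) ((1 - s) * a2 + s * b2) ≤
      (1 - s) * f a1 a2 + s * f b1 b2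

/-- The graph has a corner of a definite size at all points `j / 4 ^ k`. -/
def Touch (h : ℝ → ℝ) : Prop :=
  ∀ (k : ℕ) (j : ℤ), ∃ σ τ : ℝ, (τ = 1 ∨ τ = -1) ∧ ∀ x : ℝ, |x - j / 4 ^ k| ≤ 1 / 4 ^ k →
    1 / 2 * (1 / 3) ^ k * |x - j / 4 ^ k| ≤
      τ * (h (j / 4 ^ k) + σ * (x - j / 4 ^ k) - h x)

/-- `f` is touched from above, strictly, at `(x0, y0)` by a quadratic polynomial. -/
def Contact (f : ℝ → ℝ → ℝ) (x0 y0 p q A B C ρ : ℝ) : Prop :=
  ∀ x y, |x - x0| ≤ ρ → |y - y0| ≤ ρ → ¬ (x = x0 ∧ y = y0) →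
    f x y < f x0 y0 + p * (x - x0) + q * (y - y0) + A * (x - x0) ^ 2 +
      2 * B * (x - x0) * (y - y0) + C * (y - y0) ^ 2

lemma SegProp.above {f : ℝ → ℝ → ℝ} {h : ℝ → ℝ} (hf : Continuous (fun z : ℝ × ℝ => f z.1 z.2))
    (hs : SegProp f h) {a1 a2 b1 b2 : ℝ}
    (hab : ∀ s, 0 ≤ s → s ≤ 1 → h ((1 - s) * a1 + s * b1) ≤ (1 - s) * a2 + s * b2)
    {s : ℝ} (hs0 : 0 ≤ s) (hs1 : s ≤ 1) :
    f ((1 - s) * a1 + s * b1) ((1 - s) * a2 + s * b2) ≤ (1 - s) * f a1 a2 + s * f b1 b2 := by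
  have key : ∀ η > 0, f ((1 - s) * a1 + s * b1) ((1 - s) * (a2 + η) + s * (b2 + η)) ≤
      (1 - s) * f a1 (a2 + η) + s * f b1 (b2 + η) := by
    intro η hη
    refine hs a1 (a2 + η) b1 (b2 + η) ?_ s hs0 hs1
    intro u hu0 hu1 heq
    have := hab u hu0 hu1
    have e : (1 - u) * (a2 + η) + u * (b2 + η) = (1 - u) * a2 + u * b2 + η := by ring
    rw [e] at heq
    linarith
  have hc : ∀ u v w : ℝ, Tendsto (fun η : ℝ => f u (v + w * η)) (𝓝[>] 0) (𝓝 (f u v)) := by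
    intro u v w
    have h1 : Continuous (fun η : ℝ => f u (v + w * η)) :=
      hf.comp (by fun_prop : Continuous (fun η : ℝ => (u, v + w * η)))
    have h2 := (h1.tendsto 0).mono_left (nhdsWithin_le_nhds (s := Ioi (0 : ℝ)))
    simpa using h2
  have l1 : Tendsto (fun η : ℝ => f ((1 - s) * a1 + s * b1)
      ((1 - s) * (a2 + η) + s * (b2 + η))) (𝓝[>] 0)
      (𝓝 (f ((1 - s) * a1 + s * b1) ((1 - s) * a2 + s * b2))) := by
    refine (hc ((1 - s) * a1 + s * b1) ((1 - s) * a2 + s * b2) 1).congr fun η => ?_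
    congr 1; ring
  have l2 : Tendsto (fun η : ℝ => (1 - s) * f a1 (a2 + η) + s * f b1 (b2 + η)) (𝓝[>] 0)
      (𝓝 ((1 - s) * f a1 a2 + s * f b1 b2)) := by
    have h1 := hc a1 a2 1
    have h2 := hc b1 b2 1
    simp only [one_mul] at h1 h2
    exact (h1.const_mul _).add (h2.const_mul _)
  refine le_of_tendsto_of_tendsto l1 l2 ?_
  filter_upwards [self_mem_nhdsWithin] with η hη
  exact key η hη

/-- reflection in the horizontal axis -/
lemma SegProp.flipY {f : ℝ → ℝ → ℝ} {h : ℝ → ℝ} (hs : SegProp f h) :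
    SegProp (fun x y => f x (-y)) (fun x => -h x) := by
  intro a1 a2 b1 b2 hab s hs0 hs1
  have := hs a1 (-a2) b1 (-b2) (fun u hu0 hu1 heq => hab u hu0 hu1 (by
    change -h ((1 - u) * a1 + u * b1) = (1 - u) * a2 + u * b2
    rw [heq]; ring)) s hs0 hs1
  simp only
  have e : -((1 - s) * a2 + s * b2) = (1 - s) * -a2 + s * -b2 := by ring
  rw [e]
  exact this

lemma SegProp.below {f : ℝ → ℝ → ℝ} {h : ℝ → ℝ} (hf : Continuous (fun z : ℝ × ℝ => f z.1 z.2))
    (hs : SegProp f h) {a1 a2 b1 b2 : ℝ}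
    (hab : ∀ s, 0 ≤ s → s ≤ 1 → (1 - s) * a2 + s * b2 ≤ h ((1 - s) * a1 + s * b1))
    {s : ℝ} (hs0 : 0 ≤ s) (hs1 : s ≤ 1) :
    f ((1 - s) * a1 + s * b1) ((1 - s) * a2 + s * b2) ≤ (1 - s) * f a1 a2 + s * f b1 b2 := by
  have hf' : Continuous (fun z : ℝ × ℝ => (fun x y => f x (-y)) z.1 z.2) :=
    hf.comp (by fun_prop : Continuous (fun z : ℝ × ℝ => (z.1, -z.2)))
  have := hs.flipY.above hf' (a1 := a1) (a2 := -a2) (b1 := b1) (b2 := -b2)
    (by
      intro u hu0 hu1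
      have := hab u hu0 hu1
      have e : (1 - u) * -a2 + u * -b2 = -((1 - u) * a2 + u * b2) := by ring
      rw [e]
      linarith) hs0 hs1
  simp only [neg_neg] at this
  have e : -((1 - s) * -a2 + s * -b2) = (1 - s) * a2 + s * b2 := by ring
  rw [e] at this
  exact this

/-- The graph lies on one side of a horizontal line through the contact point. -/
lemma no_contact_flat {f : ℝ → ℝ → ℝ} {h : ℝ → ℝ}
    (hf : Continuous (fun z : ℝ × ℝ => f z.1 z.2)) (hs : SegProp f h)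
    {x0 y0 p q A B C ρ : ℝ} (hρ : 0 < ρ) (hA : A < 0) (hc : Contact f x0 y0 p q A B C ρ)
    (hside : (∀ x, |x - x0| ≤ ρ → h x ≤ y0) ∨ (∀ x, |x - x0| ≤ ρ → y0 ≤ h x)) : False := by
  have key : f ((1 - 1 / 2) * (x0 - ρ) + 1 / 2 * (x0 + ρ)) ((1 - 1 / 2) * y0 + 1 / 2 * y0) ≤
      (1 - 1 / 2) * f (x0 - ρ) y0 + 1 / 2 * f (x0 + ρ) y0 := by
    have habs : ∀ s : ℝ, 0 ≤ s → s ≤ 1 → |(1 - s) * (x0 - ρ) + s * (x0 + ρ) - x0| ≤ ρ := by
      intro s h0 h1
      have e : (1 - s) * (x0 - ρ) + s * (x0 + ρ) - x0 = (2 * s - 1) * ρ := by ring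
      rw [e, abs_mul, abs_of_pos hρ]
      have : |2 * s - 1| ≤ 1 := by rw [abs_le]; constructor <;> linarith
      nlinarith
    rcases hside with h1 | h1
    · refine hs.above hf (fun s h0 h2 => ?_) (by norm_num) (by norm_num)
      have e : (1 - s) * y0 + s * y0 = y0 := by ring
      rw [e]
      exact h1 _ (habs s h0 h2)
    · refine hs.below hf (fun s h0 h2 => ?_) (by norm_num) (by norm_num)
      have e : (1 - s) * y0 + s * y0 = y0 := by ring
      rw [e]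
      exact h1 _ (habs s h0 h2)
  have e1 : (1 - 1 / 2) * (x0 - ρ) + 1 / 2 * (x0 + ρ) = x0 := by ring
  have e2 : (1 - 1 / 2) * y0 + 1 / 2 * y0 = y0 := by ring
  rw [e1, e2] at key
  have h1 := hc (x0 - ρ) y0 (by rw [show x0 - ρ - x0 = -ρ by ring, abs_neg, abs_of_pos hρ])
    (by simp [hρ.le]) (by rintro ⟨h, -⟩; linarith)
  have h2 := hc (x0 + ρ) y0 (by rw [show x0 + ρ - x0 = ρ by ring, abs_of_pos hρ])
    (by simp [hρ.le]) (by rintro ⟨h, -⟩; linarith)
  have h3 : A * ρ ^ 2 < 0 := by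
    have : 0 < ρ ^ 2 := by positivity
    nlinarith
  ring_nf at h1 h2 key h3
  linarith

/-- the remainder after subtracting the quadratic polynomial -/
noncomputable def Rem (f : ℝ → ℝ → ℝ) (x0 y0 p q A B C : ℝ) : ℝ → ℝ → ℝ := fun x y =>
  f x y - (p * (x - x0) + q * (y - y0) + A * (x - x0) ^ 2 +
      2 * B * (x - x0) * (y - y0) + C * (y - y0) ^ 2)

lemma rem_qchord {f : ℝ → ℝ → ℝ} {x0 y0 p q A B C a1 a2 b1 b2 : ℝ}
    (h : ∀ s, 0 ≤ s → s ≤ 1 → f ((1 - s) * a1 + s * b1) ((1 - s) * a2 + s * b2) ≤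
      (1 - s) * f a1 a2 + s * f b1 b2) :
    QChord (Rem f x0 y0 p q A B C) A B C a1 a2 b1 b2 := by
  intro s h0 h1
  have := h s h0 h1
  unfold Rem
  linear_combination this

lemma qchord_neg {F : ℝ → ℝ → ℝ} {A B C a1 a2 b1 b2 : ℝ}
    (h : QChord F A B C (-a1) (-a2) (-b1) (-b2)) :
    QChord (fun x y => F (-x) (-y)) A B C a1 a2 b1 b2 := by
  intro s h0 h1
  have := h s h0 h1
  simp only
  have e1 : -((1 - s) * a1 + s * b1) = (1 - s) * -a1 + s * -b1 := by ring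
  have e2 : -((1 - s) * a2 + s * b2) = (1 - s) * -a2 + s * -b2 := by ring
  rw [e1, e2]
  linear_combination this

/-- One step at a corner of lower type. -/
lemma lower_step {F : ℝ → ℝ → ℝ} {h : ℝ → ℝ} {A B C α β ε0 S c r t σ L M : ℝ}
    (hA : A < 0) (hε0 : 0 < ε0) (hc : 0 < c) (hr : 0 < r) (hL : 0 < L)
    (HA : Below F h A B C)
    (hmono : ∀ x x', α ≤ x → x ≤ x' → x' ≤ β →
      ε0 * (x' - x) ≤ h x' - h x ∧ h x' - h x ≤ S * (x' - x))
    (hup : ∀ x, |x - t| ≤ r → c * |x - t| ≤ -(h t + σ * (x - t) - h x))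
    (hα : α ≤ t - r) (hβ : t + r + L ≤ β) (hd : S * r / ε0 ≤ L / 2)
    (hW : (|A| + 2 * |B| + |C|) * (2 * S * r) ^ 2 * (1 / ε0 + 1) ^ 2 ≤ -A * c * r * L / S)
    (hm : F (t - r) (h (t - r)) ≤ F t (h t)) (hp : F (t + r) (h (t + r)) ≤ F t (h t))
    (hqm : F (t - r + L) (h (t - r)) ≤ M) (hqp : F (t + r + L) (h (t + r)) ≤ M) :
    F t (h t) ≤ M + A * L ^ 2 / 4 := by
  have key := upper_step (F := fun x y => F (-x) (-y)) (h := fun x => -h (-x)) (A := A) (B := B)
    (C := C) (α := -β) (β := -α) (ε0 := ε0) (S := S) (c := c) (r := r) (t := -t) (σ := σ)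
    (L := L) (M := M) hA hε0 hc hr hL
    (by
      intro a1 a2 b1 b2 hab
      refine qchord_neg (HA (-a1) (-a2) (-b1) (-b2) ?_)
      intro s h0 h1
      have this : -h (-((1 - s) * a1 + s * b1)) ≤ (1 - s) * a2 + s * b2 := hab s h0 h1
      have e1 : -((1 - s) * a1 + s * b1) = (1 - s) * -a1 + s * -b1 := by ring
      rw [e1] at this
      linarith)
    (by
      intro x x' h1 h2 h3
      obtain ⟨h4, h5⟩ := hmono (-x') (-x) (by linarith) (by linarith) (by linarith)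
      constructor <;> linarith)
    (by
      intro x hx
      have e : |(-x) - t| = |x - -t| := by
        rw [← abs_neg]; congr 1; ring
      have := hup (-x) (by rw [e]; exact hx)
      rw [e] at this
      simp only [neg_neg]
      linarith)
    (by linarith) (by linarith) hd hW
    (by
      simp only [neg_neg, neg_sub]
      rw [show r - -t = t + r by ring]
      exact hp)
    (by
      simp only [neg_neg]
      rw [show -(-t + r) = t - r by ring]
      exact hm)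
    (by
      simp only [neg_neg]
      rw [show -(-t - r - L) = t + r + L by ring, show -(-t - r) = t + r by ring]
      exact hqp)
    (by
      simp only [neg_neg]
      rw [show -(-t + r - L) = t - r + L by ring, show -(-t + r) = t - r by ring]
      exact hqm)
  simpa using key

/-- No contact at a point where the graph is increasing. -/
lemma no_contact_incr {f : ℝ → ℝ → ℝ} {h : ℝ → ℝ}
    (hf : Continuous (fun z : ℝ × ℝ => f z.1 z.2)) (hh : Continuous h) (hs : SegProp f h)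
    (hT : Touch h) {x0 p q A B C ρ ε0 S : ℝ} (hρ : 0 < ρ) (hA : A < 0) (hε0 : 0 < ε0)
    (hmono : ∀ x x', x0 - ρ ≤ x → x ≤ x' → x' ≤ x0 + ρ →
      ε0 * (x' - x) ≤ h x' - h x ∧ h x' - h x ≤ S * (x' - x))
    (hc : Contact f x0 (h x0) p q A B C ρ) : False := by
  have hS0 : 0 < S := by
    obtain ⟨h1, h2⟩ := hmono x0 (x0 + ρ) (by linarith) (by linarith) le_rfl
    have : ε0 * (x0 + ρ - x0) ≤ S * (x0 + ρ - x0) := h1.trans h2
    have := le_of_mul_le_mul_right this (by linarith)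
    linarith
  set F := Rem f x0 (h x0) p q A B C with hF
  set M := f x0 (h x0) with hM
  have hFM : F x0 (h x0) = M := by simp [hF, Rem, hM]
  have hFlt : ∀ x y, |x - x0| ≤ ρ → |y - h x0| ≤ ρ → ¬ (x = x0 ∧ y = h x0) → F x y < M := by
    intro x y h1 h2 h3
    have := hc x y h1 h2 h3
    simp only [hF, Rem]
    linarith
  have hFle : ∀ x y, |x - x0| ≤ ρ → |y - h x0| ≤ ρ → F x y ≤ M := by
    intro x y h1 h2
    by_cases h3 : x = x0 ∧ y = h x0
    · rw [h3.1, h3.2, hFM]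
    · exact (hFlt x y h1 h2 h3).le
  set ρ1 := min ρ (ρ / S) with hρ1
  have hρ1pos : 0 < ρ1 := lt_min hρ (by positivity)
  have hρ1ρ : ρ1 ≤ ρ := min_le_left _ _
  have hρ1S : S * ρ1 ≤ ρ := by
    have : ρ1 ≤ ρ / S := min_le_right _ _
    rw [le_div_iff₀ hS0] at this
    linarith
  have hgr : ∀ x, |x - x0| ≤ ρ1 → |h x - h x0| ≤ ρ := by
    intro x hx
    rw [abs_le] at hx
    rcases le_total x x0 with hle | hle
    · obtain ⟨h1, h2⟩ := hmono x x0 (by linarith) hle (by linarith)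
      have h3 : 0 ≤ ε0 * (x0 - x) := mul_nonneg hε0.le (by linarith)
      have h4 : S * (x0 - x) ≤ S * ρ1 := mul_le_mul_of_nonneg_left (by linarith) hS0.le
      rw [abs_le]; constructor <;> linarith
    · obtain ⟨h1, h2⟩ := hmono x0 x (by linarith) hle (by linarith)
      have h3 : 0 ≤ ε0 * (x - x0) := mul_nonneg hε0.le (by linarith)
      have h4 : S * (x - x0) ≤ S * ρ1 := mul_le_mul_of_nonneg_left (by linarith) hS0.le
      rw [abs_le]; constructor <;> linarith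
  set G : ℝ → ℝ := fun t => F t (h t) with hG
  have hFc : Continuous (fun z : ℝ × ℝ => F z.1 z.2) := by
    simp only [hF, Rem]
    exact hf.sub (by fun_prop)
  have hGc : Continuous G := hFc.comp (by fun_prop : Continuous (fun t : ℝ => (t, h t)))
  set L := ρ1 / 8 with hL
  have hL0 : 0 < L := by positivity
  -- the margin away from `x0`
  obtain ⟨κ, hκ0, hκ⟩ : ∃ κ > 0, ∀ t, ρ1 / 4 ≤ |t - x0| → |t - x0| ≤ ρ1 / 2 → G t ≤ M - κ := by
    have hcomp : IsCompact {t : ℝ | ρ1 / 4 ≤ |t - x0| ∧ |t - x0| ≤ ρ1 / 2} := by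
      refine IsCompact.of_isClosed_subset (isCompact_closedBall x0 (ρ1 / 2)) ?_ ?_
      · have hcont : Continuous (fun t : ℝ => |t - x0|) :=
          (continuous_id.sub continuous_const).abs
        exact (isClosed_le continuous_const hcont).inter (isClosed_le hcont continuous_const)
      · rintro t ⟨-, h2⟩
        simpa [Real.dist_eq] using h2
    rcases ({t : ℝ | ρ1 / 4 ≤ |t - x0| ∧ |t - x0| ≤ ρ1 / 2}).eq_empty_or_nonempty with he | hne
    · refine ⟨1, one_pos, fun t h1 h2 => ?_⟩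
      have : t ∈ {t : ℝ | ρ1 / 4 ≤ |t - x0| ∧ |t - x0| ≤ ρ1 / 2} := ⟨h1, h2⟩
      rw [he] at this
      exact absurd this (notMem_empty _)
    · obtain ⟨t1, ht1, hmax⟩ := hcomp.exists_isMaxOn hne hGc.continuousOn
      have hlt : G t1 < M := by
        refine hFlt t1 (h t1) (by linarith [ht1.2]) (hgr t1 (by linarith [ht1.2])) ?_
        rintro ⟨h1, -⟩
        have := ht1.1
        rw [h1] at this
        simp at this
        linarith
      refine ⟨M - G t1, by linarith, fun t h1 h2 => ?_⟩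
      have := hmax (⟨h1, h2⟩ : t ∈ {t : ℝ | ρ1 / 4 ≤ |t - x0| ∧ |t - x0| ≤ ρ1 / 2})
      simp only [mem_ofPred_eq] at this
      linarith
  have hAL : 0 < -A * L ^ 2 / 4 := by
    have : 0 < -A := by linarith
    positivity
  obtain ⟨δ1, hδ1, hδ1c⟩ : ∃ δ1 > 0, ∀ t, |t - x0| < δ1 → M - min κ (-A * L ^ 2 / 4) < G t := by
    have hm : 0 < min κ (-A * L ^ 2 / 4) := lt_min hκ0 hAL
    have := (Metric.continuous_iff.1 hGc) x0 _ hm
    obtain ⟨δ1, h1, h2⟩ := this
    refine ⟨δ1, h1, fun t ht => ?_⟩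
    have h3 := h2 t (by rwa [Real.dist_eq])
    rw [Real.dist_eq, abs_lt] at h3
    have h4 : G x0 = M := hFM
    linarith [h3.1]
  -- choice of the scale
  set D := |A| + 2 * |B| + |C| with hD
  have hr0 : Tendsto (fun k : ℕ => (1 / 4 : ℝ) ^ k) atTop (𝓝 0) :=
    tendsto_pow_atTop_nhds_zero_of_lt_one (by norm_num) (by norm_num)
  have hq0 : Tendsto (fun k : ℕ => (3 / 4 : ℝ) ^ k) atTop (𝓝 0) :=
    tendsto_pow_atTop_nhds_zero_of_lt_one (by norm_num) (by norm_num)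
  have ev1 : ∀ᶠ k : ℕ in atTop, (1 / 4 : ℝ) ^ k < δ1 := hr0.eventually_lt_const hδ1
  have ev2 : ∀ᶠ k : ℕ in atTop, (1 / 4 : ℝ) ^ k < ρ1 / 8 :=
    hr0.eventually_lt_const (by positivity)
  have ev3 : ∀ᶠ k : ℕ in atTop, S * (1 / 4 : ℝ) ^ k / ε0 < L / 2 := by
    have : Tendsto (fun k : ℕ => S * (1 / 4 : ℝ) ^ k / ε0) atTop (𝓝 (S * 0 / ε0)) :=
      (hr0.const_mul S).div_const ε0
    rw [mul_zero, zero_div] at this
    exact this.eventually_lt_const (by positivity)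
  have ev4 : ∀ᶠ k : ℕ in atTop,
      D * (2 * S) ^ 2 * (1 / ε0 + 1) ^ 2 * (2 * S) * (3 / 4 : ℝ) ^ k < -A * L := by
    have : Tendsto (fun k : ℕ => D * (2 * S) ^ 2 * (1 / ε0 + 1) ^ 2 * (2 * S) *
        (3 / 4 : ℝ) ^ k) atTop (𝓝 (D * (2 * S) ^ 2 * (1 / ε0 + 1) ^ 2 * (2 * S) * 0)) :=
      hq0.const_mul _
    rw [mul_zero] at this
    refine this.eventually_lt_const ?_
    have : 0 < -A := by linarith
    positivity
  obtain ⟨k, hk1, hk2, hk3, hk4⟩ := (ev1.and (ev2.and (ev3.and ev4))).exists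
  set r : ℝ := (1 / 4 : ℝ) ^ k with hr
  have hrpos : 0 < r := by positivity
  have hrdef : (1 : ℝ) / 4 ^ k = r := by rw [hr, one_div_pow]
  have hjr : ∀ j : ℤ, (j : ℝ) / 4 ^ k = j * r := by
    intro j; rw [← hrdef]; ring
  -- the finite set of vertices
  set J : Set ℤ := {j : ℤ | |(j : ℝ) * r - x0| ≤ ρ1 / 2} with hJ
  have hJfin : J.Finite := by
    refine (Set.finite_Icc ⌊(x0 - ρ1 / 2) / r⌋ ⌈(x0 + ρ1 / 2) / r⌉).subset ?_
    intro j hj
    have hj' : |(j : ℝ) * r - x0| ≤ ρ1 / 2 := hj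
    rw [abs_le] at hj'
    constructor
    · have h1 : (x0 - ρ1 / 2) / r ≤ j := by
        rw [div_le_iff₀ hrpos]; linarith
      have := (Int.floor_le ((x0 - ρ1 / 2) / r)).trans h1
      exact_mod_cast this
    · have h1 : (j : ℝ) ≤ (x0 + ρ1 / 2) / r := by
        rw [le_div_iff₀ hrpos]; linarith
      have := h1.trans (Int.le_ceil ((x0 + ρ1 / 2) / r))
      exact_mod_cast this
  have hj0 : |(⌊x0 / r⌋ : ℝ) * r - x0| ≤ r := by
    have h1 := Int.floor_le (x0 / r)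
    have h2 := Int.lt_floor_add_one (x0 / r)
    rw [le_div_iff₀ hrpos] at h1
    rw [div_lt_iff₀ hrpos] at h2
    rw [abs_le]; constructor <;> linarith
  have hj0J : ⌊x0 / r⌋ ∈ J := by
    change |(⌊x0 / r⌋ : ℝ) * r - x0| ≤ ρ1 / 2
    linarith
  obtain ⟨j, hjJ, hjmax⟩ := Set.exists_max_image J (fun j : ℤ => G (j * r)) hJfin ⟨_, hj0J⟩
  set t : ℝ := j * r with ht
  have hGt : M - min κ (-A * L ^ 2 / 4) < G t :=
    lt_of_lt_of_le (hδ1c _ (lt_of_le_of_lt hj0 hk1)) (hjmax _ hj0J)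
  have htnear : |t - x0| < ρ1 / 4 := by
    by_contra hcon
    push Not at hcon
    have := hκ t hcon hjJ
    have h2 := min_le_left κ (-A * L ^ 2 / 4)
    linarith
  rw [abs_lt] at htnear
  have hbox : ∀ x y, |x - x0| ≤ ρ1 → |y - x0| ≤ ρ1 → F x (h y) ≤ M := by
    intro x y h1 h2
    exact hFle x (h y) (h1.trans hρ1ρ) (hgr y h2)
  have hm : F (t - r) (h (t - r)) ≤ F t (h t) := by
    have hJm : j - 1 ∈ J := by
      change |((j - 1 : ℤ) : ℝ) * r - x0| ≤ ρ1 / 2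
      have e : ((j - 1 : ℤ) : ℝ) * r - x0 = t - r - x0 := by push_cast; rw [ht]; ring
      rw [e, abs_le]; constructor <;> linarith
    have := hjmax _ hJm
    have e : ((j - 1 : ℤ) : ℝ) * r = t - r := by push_cast; rw [ht]; ring
    simp only [e] at this
    exact this
  have hp : F (t + r) (h (t + r)) ≤ F t (h t) := by
    have hJm : j + 1 ∈ J := by
      change |((j + 1 : ℤ) : ℝ) * r - x0| ≤ ρ1 / 2
      have e : ((j + 1 : ℤ) : ℝ) * r - x0 = t + r - x0 := by push_cast; rw [ht]; ring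
      rw [e, abs_le]; constructor <;> linarith
    have := hjmax _ hJm
    have e : ((j + 1 : ℤ) : ℝ) * r = t + r := by push_cast; rw [ht]; ring
    simp only [e] at this
    exact this
  obtain ⟨σ, τ, hτ, htouch⟩ := hT k j
  rw [hjr j, hrdef, ← ht] at htouch
  have hW : D * (2 * S * r) ^ 2 * (1 / ε0 + 1) ^ 2 ≤ -A * (1 / 2 * (1 / 3) ^ k) * r * L / S := by
    rw [le_div_iff₀ hS0]
    have h34 : (3 / 4 : ℝ) ^ k * (1 / 3) ^ k = r := by
      rw [hr, ← mul_pow]; norm_num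
    have h3 : (0 : ℝ) < (1 / 3) ^ k := by positivity
    have h5 := mul_le_mul_of_nonneg_right hk4.le (by positivity : (0 : ℝ) ≤ (1 / 3) ^ k * r / 2)
    calc D * (2 * S * r) ^ 2 * (1 / ε0 + 1) ^ 2 * S
        = D * (2 * S) ^ 2 * (1 / ε0 + 1) ^ 2 * (2 * S) * r * (r / 2) := by ring
      _ = D * (2 * S) ^ 2 * (1 / ε0 + 1) ^ 2 * (2 * S) * ((3 / 4 : ℝ) ^ k * (1 / 3) ^ k) *
          (r / 2) := by rw [h34]
      _ = D * (2 * S) ^ 2 * (1 / ε0 + 1) ^ 2 * (2 * S) * (3 / 4 : ℝ) ^ k *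
          ((1 / 3) ^ k * r / 2) := by ring
      _ ≤ -A * L * ((1 / 3) ^ k * r / 2) := h5
      _ = -A * (1 / 2 * (1 / 3) ^ k) * r * L := by ring
  have hmono1 : ∀ x x', x0 - ρ1 ≤ x → x ≤ x' → x' ≤ x0 + ρ1 →
      ε0 * (x' - x) ≤ h x' - h x ∧ h x' - h x ≤ S * (x' - x) :=
    fun x x' h1 h2 h3 => hmono x x' (by linarith) h2 (by linarith)
  have hfin : F t (h t) ≤ M + A * L ^ 2 / 4 := by
    rcases hτ with rfl | rfl
    · refine upper_step (F := F) (h := h) (α := x0 - ρ1) (β := x0 + ρ1) (ε0 := ε0) (S := S)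
        (c := 1 / 2 * (1 / 3) ^ k) (r := r) (t := t) (σ := σ) (L := L) (M := M)
        hA hε0 (by positivity) hrpos hL0 ?_ hmono1 ?_ (by linarith) (by linarith) hk3.le hW
        hm hp ?_ ?_
      · intro a1 a2 b1 b2 hab
        exact rem_qchord fun s h0 h1 => hs.above hf hab h0 h1
      · intro x hx
        have := htouch x hx
        linarith
      · apply hbox <;> rw [abs_le] <;> constructor <;> linarith
      · apply hbox <;> rw [abs_le] <;> constructor <;> linarith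
    · refine lower_step (F := F) (h := h) (α := x0 - ρ1) (β := x0 + ρ1) (ε0 := ε0) (S := S)
        (c := 1 / 2 * (1 / 3) ^ k) (r := r) (t := t) (σ := σ) (L := L) (M := M)
        hA hε0 (by positivity) hrpos hL0 ?_ hmono1 ?_ (by linarith) (by linarith) hk3.le hW
        hm hp ?_ ?_
      · intro a1 a2 b1 b2 hab
        exact rem_qchord fun s h0 h1 => hs.below hf hab h0 h1
      · intro x hx
        have := htouch x hx
        linarith
      · apply hbox <;> rw [abs_le] <;> constructor <;> linarith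
      · apply hbox <;> rw [abs_le] <;> constructor <;> linarith
  have h2 := min_le_right κ (-A * L ^ 2 / 4)
  have h3 : G t = F t (h t) := rfl
  linarith

lemma Touch.neg {h : ℝ → ℝ} (hT : Touch h) : Touch (fun x => -h x) := by
  intro k j
  obtain ⟨σ, τ, hτ, ht⟩ := hT k j
  refine ⟨-σ, -τ, ?_, fun x hx => ?_⟩
  · rcases hτ with rfl | rfl
    · right; rfl
    · left; norm_num
  · have := ht x hx
    linarith

/-- No contact at a point where the graph is decreasing. -/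
lemma no_contact_decr {f : ℝ → ℝ → ℝ} {h : ℝ → ℝ}
    (hf : Continuous (fun z : ℝ × ℝ => f z.1 z.2)) (hh : Continuous h) (hs : SegProp f h)
    (hT : Touch h) {x0 p q A B C ρ ε0 S : ℝ} (hρ : 0 < ρ) (hA : A < 0) (hε0 : 0 < ε0)
    (hmono : ∀ x x', x0 - ρ ≤ x → x ≤ x' → x' ≤ x0 + ρ →
      ε0 * (x' - x) ≤ h x - h x' ∧ h x - h x' ≤ S * (x' - x))
    (hc : Contact f x0 (h x0) p q A B C ρ) : False := by
  have hf' : Continuous (fun z : ℝ × ℝ => (fun x y => f x (-y)) z.1 z.2) :=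
    hf.comp (by fun_prop : Continuous (fun z : ℝ × ℝ => (z.1, -z.2)))
  refine no_contact_incr (h := fun x => -h x) hf' hh.neg hs.flipY hT.neg (x0 := x0) (p := p) (q := -q) (A := A)
    (B := -B) (C := C) (ρ := ρ) (ε0 := ε0) (S := S) hρ hA hε0 ?_ ?_
  · intro x x' h1 h2 h3
    obtain ⟨h4, h5⟩ := hmono x x' h1 h2 h3
    constructor <;> linarith
  · intro x y h1 h2 h3
    have e : |-y - h x0| = |y - -h x0| := by rw [← abs_neg]; congr 1; ring
    have := hc x (-y) h1 (by rw [e]; exact h2) (by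
      rintro ⟨h4, h5⟩
      exact h3 ⟨h4, by linarith⟩)
    have h6 : f x0 (-(-h x0)) = f x0 (h x0) := by rw [neg_neg]
    simp only [h6]
    nlinarith

end Q92.CRem
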