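import Pool.Agent.Q92.CRem.Contact

/-!
The graph of `g` is removable for convexity.
-/

open Set Filter Topology

namespace Q92.CRem

lemma mono_of_sides {h : ℝ → ℝ} {x0 ρ ε : ℝ}
    (hr : ∀ x x', x0 ≤ x → x ≤ x' → x' ≤ x0 + ρ → ε * (x' - x) ≤ h x' - h x)
    (hl : ∀ x x', x0 - ρ ≤ x → x ≤ x' → x' ≤ x0 → ε * (x' - x) ≤ h x' - h x) :
    ∀ x x', x0 - ρ ≤ x → x ≤ x' → x' ≤ x0 + ρ → ε * (x' - x) ≤ h x' - h x := by
  intro x x' h1 h2 h3
  rcases le_total x' x0 with h4 | h4
  · exact hl x x' h1 h2 h4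
  · rcases le_total x0 x with h5 | h5
    · exact hr x x' h5 h2 h3
    · have k1 := hl x x0 h1 h5 le_rfl
      have k2 := hr x0 x' le_rfl h4 h3
      have e : ε * (x' - x) = ε * (x0 - x) + ε * (x' - x0) := by ring
      linarith

lemma exists_slope {A B C e1 e2 : ℝ} (h : A * e1 ^ 2 + 2 * B * e1 * e2 + C * e2 ^ 2 < 0) :
    ∃ m : ℝ, A + 2 * B * m + C * m ^ 2 < 0 := by
  by_cases he : e1 = 0
  · rw [he] at h
    have hC : C < 0 := by
      by_contra hcon
      push Not at hcon
      have := mul_nonneg hcon (sq_nonneg e2)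
      linarith
    refine ⟨1 + (|A| + 2 * |B| + 1) / (-C), ?_⟩
    set m := 1 + (|A| + 2 * |B| + 1) / (-C) with hm
    have hC' : 0 < -C := by linarith
    have hm1 : 1 ≤ m := by
      have : 0 ≤ (|A| + 2 * |B| + 1) / (-C) := by positivity
      linarith
    have hm2 : |A| + 2 * |B| + 1 ≤ -C * m := by
      have : -C * m = -C + (|A| + 2 * |B| + 1) := by
        rw [hm, mul_add, mul_one]
        congr 1
        exact mul_div_cancel₀ _ hC'.ne'
      linarith
    have k1 : A ≤ |A| * m := by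
      have := mul_le_mul_of_nonneg_left hm1 (abs_nonneg A)
      linarith [le_abs_self A]
    have k2 : 2 * B * m ≤ 2 * |B| * m := by
      have := mul_le_mul_of_nonneg_right (le_abs_self B) (by linarith : 0 ≤ 2 * m)
      linarith
    have k3 : (|A| + 2 * |B| + 1) * m ≤ -C * m * m :=
      mul_le_mul_of_nonneg_right hm2 (by linarith)
    have e : C * m ^ 2 = -(-C * m * m) := by ring
    rw [e]
    have : (|A| + 2 * |B| + 1) * m = |A| * m + 2 * |B| * m + m := by ring
    linarith
  · refine ⟨e2 / e1, ?_⟩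
    have h1 : A + 2 * B * (e2 / e1) + C * (e2 / e1) ^ 2 =
        (A * e1 ^ 2 + 2 * B * e1 * e2 + C * e2 ^ 2) / e1 ^ 2 := by
      field_simp
    rw [h1]
    exact div_neg_of_neg_of_pos h (by positivity)

lemma choose_slope {w ε m0 s1 s2 : ℝ} (hε : 0 < ε) (hw : 10 * ε < w) :
    ∃ m, |m - m0| < w ∧ 2 * ε ≤ |m - s1| ∧ 2 * ε ≤ |m - s2| := by
  by_contra hcon
  push Not at hcon
  have h1 := hcon m0 (by simp; linarith)
  have h2 := hcon (m0 + 5 * ε) (by
    rw [show m0 + 5 * ε - m0 = 5 * ε by ring, abs_of_pos (by positivity)]; linarith)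
  have h3 := hcon (m0 + 10 * ε) (by
    rw [show m0 + 10 * ε - m0 = 10 * ε by ring, abs_of_pos (by positivity)]; linarith)
  by_cases k1 : 2 * ε ≤ |m0 - s1|
  · have l1 := h1 k1
    by_cases k2 : 2 * ε ≤ |m0 + 5 * ε - s1|
    · have l2 := h2 k2
      rw [abs_lt] at l1 l2
      linarith
    · push Not at k2
      by_cases k3 : 2 * ε ≤ |m0 + 10 * ε - s1|
      · have l3 := h3 k3
        rw [abs_lt] at l1 l3
        linarith
      · push Not at k3
        rw [abs_lt] at k2 k3
        linarith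
  · push Not at k1
    by_cases k2 : 2 * ε ≤ |m0 + 5 * ε - s1|
    · have l2 := h2 k2
      by_cases k3 : 2 * ε ≤ |m0 + 10 * ε - s1|
      · have l3 := h3 k3
        rw [abs_lt] at l2 l3
        linarith
      · push Not at k3
        rw [abs_lt] at k1 k3
        linarith
    · push Not at k2
      rw [abs_lt] at k1 k2
      linarith

/-- A continuous function satisfying the chord inequality on all segments avoiding the graph
of `g` satisfies it on all segments. -/
theorem chord_all {f : ℝ → ℝ → ℝ} (hf : Continuous (fun z : ℝ × ℝ => f z.1 z.2))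
    (hs : SegProp f g) (a1 a2 b1 b2 : ℝ) {t : ℝ} (ht0 : 0 ≤ t) (ht1 : t ≤ 1) :
    f ((1 - t) * a1 + t * b1) ((1 - t) * a2 + t * b2) ≤ (1 - t) * f a1 a2 + t * f b1 b2 := by
  by_contra hcon
  push Not at hcon
  obtain ⟨x0, y0, p, q, A, B, C, e1, e2, ρ, hρ, hneg, hc⟩ := exists_contact hf ht0 ht1 hcon
  obtain ⟨m0, hm0⟩ := exists_slope hneg
  obtain ⟨w, hw, hwm⟩ : ∃ w > 0, ∀ m, |m - m0| < w → A + 2 * B * m + C * m ^ 2 < 0 := by
    have hcont : Continuous (fun m : ℝ => A + 2 * B * m + C * m ^ 2) := by fun_prop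
    have hopen : IsOpen {m : ℝ | A + 2 * B * m + C * m ^ 2 < 0} :=
      isOpen_lt hcont continuous_const
    obtain ⟨w, hw, hball⟩ := Metric.isOpen_iff.1 hopen m0 hm0
    refine ⟨w, hw, fun m hm => ?_⟩
    exact hball (by rw [Metric.mem_ball, Real.dist_eq]; exact hm)
  obtain ⟨k, hk⟩ : ∃ k : ℕ, 15 * (1 / 3 : ℝ) ^ k < w := by
    have : Tendsto (fun k : ℕ => 15 * (1 / 3 : ℝ) ^ k) atTop (𝓝 (15 * 0)) :=
      (tendsto_pow_atTop_nhds_zero_of_lt_one (by norm_num) (by norm_num)).const_mul _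
    rw [mul_zero] at this
    exact (this.eventually_lt_const hw).exists
  set ε : ℝ := 3 / 2 * (1 / 3) ^ k with hε
  have hε0 : 0 < ε := by positivity
  obtain ⟨ρr, hρr, sr, hsr⟩ := right_secant k x0
  obtain ⟨ρl, hρl, sl, hsl⟩ := left_secant k x0
  rw [← hε] at hsr hsl
  obtain ⟨m, hmw, hmr, hml⟩ := choose_slope (m0 := m0) (s1 := sr) (s2 := sl) hε0
    (by rw [hε]; linarith : 10 * ε < w)
  have hAneg := hwm m hmw
  -- shear
  set F : ℝ → ℝ → ℝ := fun x y => f x (y + m * x) with hF
  set h : ℝ → ℝ := fun x => g x - m * x with hh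
  have hhc : Continuous h := by
    simp only [hh]
    exact g_continuous.sub (by fun_prop)
  have hFc : Continuous (fun z : ℝ × ℝ => F z.1 z.2) := by
    simp only [hF]
    exact hf.comp (by fun_prop : Continuous (fun z : ℝ × ℝ => (z.1, z.2 + m * z.1)))
  have hFs : SegProp F h := by
    intro c1 c2 d1 d2 hcd s hs0 hs1
    have key := hs c1 (c2 + m * c1) d1 (d2 + m * d1) (by
      intro u hu0 hu1 heq
      apply hcd u hu0 hu1
      simp only [hh]
      rw [heq]; ring) s hs0 hs1
    simp only [hF]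
    have e : (1 - s) * c2 + s * d2 + m * ((1 - s) * c1 + s * d1) =
        (1 - s) * (c2 + m * c1) + s * (d2 + m * d1) := by ring
    rw [e]
    exact key
  have hT : Touch h := by
    intro k j
    obtain ⟨σ, τ, hτ, ht⟩ := g_touch k j
    refine ⟨σ - m, τ, hτ, fun x hx => ?_⟩
    have := ht x hx
    simp only [hh]
    have e : g (j / 4 ^ k) - m * (j / 4 ^ k) + (σ - m) * (x - j / 4 ^ k) - (g x - m * x) =
        g (j / 4 ^ k) + σ * (x - j / 4 ^ k) - g x := by ring
    rw [e]
    exact this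
  set y1 := y0 - m * x0 with hy1
  set ρ1 := ρ / (1 + |m|) with hρ1
  have hm1 : 0 < 1 + |m| := by positivity
  have hρ1pos : 0 < ρ1 := by positivity
  have hρ1mul : ρ1 * (1 + |m|) = ρ := by rw [hρ1]; field_simp
  have hcF : ∀ ρ2, 0 < ρ2 → ρ2 ≤ ρ1 → Contact F x0 y1 (p + q * m) q
      (A + 2 * B * m + C * m ^ 2) (B + C * m) C ρ2 := by
    intro ρ2 hρ2 hρ21 x y hx hy hne
    have h1 : |m * (x - x0)| ≤ |m| * ρ1 := by
      rw [abs_mul]
      exact mul_le_mul_of_nonneg_left (hx.trans hρ21) (abs_nonneg m)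
    have key := hc x (y + m * x) (by
        have : ρ1 ≤ ρ := by
          have := mul_nonneg hρ1pos.le (abs_nonneg m)
          linarith
        linarith) (by
        have e : y + m * x - y0 = (y - y1) + m * (x - x0) := by rw [hy1]; ring
        rw [e]
        refine (abs_add_le _ _).trans ?_
        linarith) (by
        rintro ⟨k1, k2⟩
        apply hne
        refine ⟨k1, ?_⟩
        rw [hy1, ← k2, k1]; ring)
    simp only [hF]
    have e2 : y1 + m * x0 = y0 := by rw [hy1]; ring
    rw [e2]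
    have e3 : y + m * x - y0 = (y - y1) + m * (x - x0) := by rw [hy1]; ring
    rw [e3] at key
    linear_combination key
  have hlip : ∀ x x', x ≤ x' → |h x' - h x| ≤ (3 / 2 + |m|) * (x' - x) := by
    intro x x' hxx
    have h1 := g_lip x' x
    rw [abs_of_nonneg (by linarith : 0 ≤ x' - x)] at h1
    have e : h x' - h x = (g x' - g x) + -(m * (x' - x)) := by simp only [hh]; ring
    rw [e]
    refine (abs_add_le _ _).trans ?_
    rw [abs_neg, abs_mul, abs_of_nonneg (by linarith : 0 ≤ x' - x)]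
    linarith
  by_cases hy : h x0 = y1
  · -- the point lies on the graph
    set ρ2 := min ρ1 (min ρr ρl) with hρ2
    have hρ2pos : 0 < ρ2 := lt_min hρ1pos (lt_min hρr hρl)
    have l1 : ρ2 ≤ ρ1 := min_le_left _ _
    have l2 : ρ2 ≤ ρr := (min_le_right _ _).trans (min_le_left _ _)
    have l3 : ρ2 ≤ ρl := (min_le_right _ _).trans (min_le_right _ _)
    have hcon2 := hcF ρ2 hρ2pos l1
    have hR : ∀ x x', x0 ≤ x → x ≤ x' → x' ≤ x0 + ρ2 →
        |(h x' - h x) - (sr - m) * (x' - x)| ≤ ε * (x' - x) := by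
      intro x x' h1 h2 h3
      have := hsr x x' h1 h2 (by linarith)
      have e : (h x' - h x) - (sr - m) * (x' - x) = g x' - g x - sr * (x' - x) := by
        simp only [hh]; ring
      rw [e]; exact this
    have hL : ∀ x x', x0 - ρ2 ≤ x → x ≤ x' → x' ≤ x0 →
        |(h x' - h x) - (sl - m) * (x' - x)| ≤ ε * (x' - x) := by
      intro x x' h1 h2 h3
      have := hsl x x' (by linarith) h2 h3
      have e : (h x' - h x) - (sl - m) * (x' - x) = g x' - g x - sl * (x' - x) := by
        simp only [hh]; ring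
      rw [e]; exact this
    have hRp : m ≤ sr - 2 * ε → ∀ x x', x0 ≤ x → x ≤ x' → x' ≤ x0 + ρ2 →
        ε * (x' - x) ≤ h x' - h x := by
      intro hs' x x' h1 h2 h3
      have k1 := (abs_le.1 (hR x x' h1 h2 h3)).1
      have k2 : 2 * ε * (x' - x) ≤ (sr - m) * (x' - x) :=
        mul_le_mul_of_nonneg_right (by linarith) (by linarith)
      linarith
    have hRm : sr + 2 * ε ≤ m → ∀ x x', x0 ≤ x → x ≤ x' → x' ≤ x0 + ρ2 →
        ε * (x' - x) ≤ h x - h x' := by
      intro hs' x x' h1 h2 h3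
      have k1 := (abs_le.1 (hR x x' h1 h2 h3)).2
      have k2 : 2 * ε * (x' - x) ≤ (m - sr) * (x' - x) :=
        mul_le_mul_of_nonneg_right (by linarith) (by linarith)
      linarith
    have hLp : m ≤ sl - 2 * ε → ∀ x x', x0 - ρ2 ≤ x → x ≤ x' → x' ≤ x0 →
        ε * (x' - x) ≤ h x' - h x := by
      intro hs' x x' h1 h2 h3
      have k1 := (abs_le.1 (hL x x' h1 h2 h3)).1
      have k2 : 2 * ε * (x' - x) ≤ (sl - m) * (x' - x) :=
        mul_le_mul_of_nonneg_right (by linarith) (by linarith)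
      linarith
    have hLm : sl + 2 * ε ≤ m → ∀ x x', x0 - ρ2 ≤ x → x ≤ x' → x' ≤ x0 →
        ε * (x' - x) ≤ h x - h x' := by
      intro hs' x x' h1 h2 h3
      have k1 := (abs_le.1 (hL x x' h1 h2 h3)).2
      have k2 : 2 * ε * (x' - x) ≤ (m - sl) * (x' - x) :=
        mul_le_mul_of_nonneg_right (by linarith) (by linarith)
      linarith
    rcases le_abs'.1 hmr with c1 | c1 <;> rcases le_abs'.1 hml with c2 | c2
    · -- increasing
      have hmono := mono_of_sides (hRp (by linarith)) (hLp (by linarith))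
      rw [← hy] at hcon2
      exact no_contact_incr hFc hhc hFs hT hρ2pos hAneg hε0
        (fun x x' h1 h2 h3 => ⟨hmono x x' h1 h2 h3,
          (le_abs_self _).trans (hlip x x' h2)⟩) hcon2
    · -- right increasing, left decreasing
      refine no_contact_flat hFc hFs hρ2pos hAneg hcon2 (Or.inr fun x hx => ?_)
      rw [abs_le] at hx
      rw [← hy]
      rcases le_total x x0 with hle | hle
      · have := hLm (by linarith) x x0 (by linarith) hle le_rfl
        have h3 : 0 ≤ ε * (x0 - x) := mul_nonneg hε0.le (by linarith)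
        linarith
      · have := hRp (by linarith) x0 x le_rfl hle (by linarith)
        have h3 : 0 ≤ ε * (x - x0) := mul_nonneg hε0.le (by linarith)
        linarith
    · -- right decreasing, left increasing
      refine no_contact_flat hFc hFs hρ2pos hAneg hcon2 (Or.inl fun x hx => ?_)
      rw [abs_le] at hx
      rw [← hy]
      rcases le_total x x0 with hle | hle
      · have := hLp (by linarith) x x0 (by linarith) hle le_rfl
        have h3 : 0 ≤ ε * (x0 - x) := mul_nonneg hε0.le (by linarith)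
        linarith
      · have := hRm (by linarith) x0 x le_rfl hle (by linarith)
        have h3 : 0 ≤ ε * (x - x0) := mul_nonneg hε0.le (by linarith)
        linarith
    · -- decreasing
      have hmono := mono_of_sides (h := fun x => -h x) (x0 := x0) (ρ := ρ2) (ε := ε)
        (fun x x' h1 h2 h3 => by have := hRm (by linarith) x x' h1 h2 h3; linarith)
        (fun x x' h1 h2 h3 => by have := hLm (by linarith) x x' h1 h2 h3; linarith)
      rw [← hy] at hcon2
      refine no_contact_decr hFc hhc hFs hT (S := 3 / 2 + |m|) hρ2pos hAneg hε0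
        (fun x x' h1 h2 h3 => ⟨?_, ?_⟩) hcon2
      · have := hmono x x' h1 h2 h3
        linarith
      · have := (abs_le.1 (hlip x x' h2)).1
        linarith
  · -- the point lies off the graph
    obtain ⟨δ, hδ, hδ'⟩ := (Metric.continuous_iff.1 hhc) x0 |h x0 - y1|
      (abs_pos.2 (sub_ne_zero.2 hy))
    set ρ2 := min ρ1 (δ / 2) with hρ2
    have hρ2pos : 0 < ρ2 := lt_min hρ1pos (by positivity)
    have l1 : ρ2 ≤ ρ1 := min_le_left _ _
    have l2 : ρ2 ≤ δ / 2 := min_le_right _ _
    refine no_contact_flat hFc hFs hρ2pos hAneg (hcF ρ2 hρ2pos l1) ?_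
    rcases lt_or_gt_of_ne hy with hlt | hgt
    · left
      intro x hx
      have := hδ' x (by rw [Real.dist_eq]; linarith)
      rw [Real.dist_eq, abs_of_neg (by linarith : h x0 - y1 < 0), abs_lt] at this
      linarith [this.2]
    · right
      intro x hx
      have := hδ' x (by rw [Real.dist_eq]; linarith)
      rw [Real.dist_eq, abs_of_pos (by linarith : 0 < h x0 - y1), abs_lt] at this
      linarith [this.1]

/-- Local convexity off `K` gives the chord inequality on segments off `K`. -/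
theorem seg_of_local {K : Set (ℝ × ℝ)} {f : ℝ × ℝ → ℝ} (hf : Continuous f)
    (hloc : ∀ z ∈ Kᶜ, ∃ V ⊆ Kᶜ, IsOpen V ∧ Convex ℝ V ∧ z ∈ V ∧ ConvexOn ℝ V f)
    {a1 a2 b1 b2 : ℝ}
    (hab : ∀ s, 0 ≤ s → s ≤ 1 → ((1 - s) * a1 + s * b1, (1 - s) * a2 + s * b2) ∉ K)
    {s : ℝ} (hs0 : 0 ≤ s) (hs1 : s ≤ 1) :
    f ((1 - s) * a1 + s * b1, (1 - s) * a2 + s * b2) ≤
      (1 - s) * f (a1, a2) + s * f (b1, b2) := by
  set γ : ℝ → ℝ × ℝ := fun u => ((1 - u) * a1 + u * b1, (1 - u) * a2 + u * b2) with hγ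
  have hγc : Continuous γ := by simp only [hγ]; fun_prop
  have key := local_to_global (φ := fun u => f (γ u)) (hf.comp hγc) (by
    intro u hu0 hu1
    obtain ⟨V, -, hVo, -, hzV, hconv⟩ := hloc (γ u) (hab u hu0.le hu1.le)
    obtain ⟨ε, hε, hball⟩ := Metric.isOpen_iff.1 (hVo.preimage hγc) u hzV
    refine ⟨ε, hε, fun h hh0 hh1 => ?_⟩
    have m1 : γ (u + h) ∈ V := hball (by
      rw [Metric.mem_ball, Real.dist_eq, show u + h - u = h by ring, abs_of_pos hh0]; exact hh1)
    have m2 : γ (u - h) ∈ V := hball (by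
      rw [Metric.mem_ball, Real.dist_eq, show u - h - u = -h by ring, abs_neg,
        abs_of_pos hh0]; exact hh1)
    have := hconv.2 m1 m2 (by norm_num : (0 : ℝ) ≤ 1 / 2) (by norm_num : (0 : ℝ) ≤ 1 / 2)
      (by norm_num)
    have e : (1 / 2 : ℝ) • γ (u + h) + (1 / 2 : ℝ) • γ (u - h) = γ u := by
      simp only [hγ, Prod.smul_mk, Prod.mk_add_mk, smul_eq_mul]
      congr 1 <;> ring
    rw [e] at this
    simp only [smul_eq_mul] at this
    linarith) hs0 hs1
  simp only [hγ] at key
  simpa using key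

/-- Every set contained in the graph of `g` is removable for convexity. -/
theorem removable {K : Set (ℝ × ℝ)} (hK : ∀ z ∈ K, z.2 = g z.1) {f : ℝ × ℝ → ℝ}
    (hf : Continuous f)
    (hloc : ∀ z ∈ Kᶜ, ∃ V ⊆ Kᶜ, IsOpen V ∧ Convex ℝ V ∧ z ∈ V ∧ ConvexOn ℝ V f) :
    ConvexOn ℝ univ f := by
  have hs : SegProp (fun x y => f (x, y)) g := by
    intro a1 a2 b1 b2 hab s hs0 hs1
    refine seg_of_local hf hloc (fun u hu0 hu1 hmem => ?_) hs0 hs1
    exact hab u hu0 hu1 (hK _ hmem).symm
  refine ⟨convex_univ, fun a _ b _ u v hu hv huv => ?_⟩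
  have hu' : u = 1 - v := by linarith
  have key := chord_all (f := fun x y => f (x, y)) hf hs a.1 a.2 b.1 b.2 hv (by linarith)
  have e : u • a + v • b = ((1 - v) * a.1 + v * b.1, (1 - v) * a.2 + v * b.2) := by
    rw [hu']; rfl
  rw [e, hu']
  simpa using key

end Q92.CRem
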