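import Mathlib

/-!
A continuous function on the plane which is convex on all segments avoiding the graph of `h`:
one step of the discrete maximum principle at a corner of the graph.
-/

open Set Filter Topology

namespace Q92.CRem

/-- The chord inequality of `F` on a segment up to a quadratic error. -/
def QChord (F : ℝ → ℝ → ℝ) (A B C : ℝ) (a1 a2 b1 b2 : ℝ) : Prop :=
  ∀ s, 0 ≤ s → s ≤ 1 → F ((1 - s) * a1 + s * b1) ((1 - s) * a2 + s * b2) ≤
    (1 - s) * F a1 a2 + s * F b1 b2 +
      s * (1 - s) * (A * (b1 - a1) ^ 2 + 2 * B * (b1 - a1) * (b2 - a2) + C * (b2 - a2) ^ 2)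

/-- The chord inequality holds on all segments lying weakly above the graph of `h`. -/
def Above (F : ℝ → ℝ → ℝ) (h : ℝ → ℝ) (A B C : ℝ) : Prop :=
  ∀ a1 a2 b1 b2, (∀ s, 0 ≤ s → s ≤ 1 → h ((1 - s) * a1 + s * b1) ≤ (1 - s) * a2 + s * b2) →
    QChord F A B C a1 a2 b1 b2

/-- The chord inequality holds on all segments lying weakly below the graph of `h`. -/
def Below (F : ℝ → ℝ → ℝ) (h : ℝ → ℝ) (A B C : ℝ) : Prop :=
  ∀ a1 a2 b1 b2, (∀ s, 0 ≤ s → s ≤ 1 → (1 - s) * a2 + s * b2 ≤ h ((1 - s) * a1 + s * b1)) →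
    QChord F A B C a1 a2 b1 b2

lemma mul_one_sub_le (s : ℝ) : s * (1 - s) ≤ 1 / 4 := by nlinarith [sq_nonneg (s - 1 / 2)]

lemma quad_bound (A B C X Y R e : ℝ) (hR : 0 ≤ R) (he : 0 < e)
    (hX : |X| ≤ R / e) (hY : |Y| ≤ R) :
    A * X ^ 2 + 2 * B * X * Y + C * Y ^ 2 ≤
      (|A| + 2 * |B| + |C|) * R ^ 2 * (1 / e + 1) ^ 2 := by
  have h1 : |X| ≤ R * (1 / e + 1) := by
    refine hX.trans ?_
    have : R / e = R * (1 / e) := by ring
    rw [this]
    nlinarith
  have h2 : |Y| ≤ R * (1 / e + 1) := by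
    refine hY.trans ?_
    have : 0 ≤ R * (1 / e) := by positivity
    linarith
  set T := R * (1 / e + 1) with hT
  have hT0 : 0 ≤ T := by positivity
  have e1 : A * X ^ 2 ≤ |A| * T ^ 2 := by
    have : X ^ 2 ≤ T ^ 2 := by rw [← sq_abs X]; exact pow_le_pow_left₀ (abs_nonneg _) h1 2
    calc A * X ^ 2 ≤ |A| * X ^ 2 := mul_le_mul_of_nonneg_right (le_abs_self A) (sq_nonneg X)
      _ ≤ |A| * T ^ 2 := mul_le_mul_of_nonneg_left this (abs_nonneg A)
  have e2 : C * Y ^ 2 ≤ |C| * T ^ 2 := by
    have : Y ^ 2 ≤ T ^ 2 := by rw [← sq_abs Y]; exact pow_le_pow_left₀ (abs_nonneg _) h2 2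
    calc C * Y ^ 2 ≤ |C| * Y ^ 2 := mul_le_mul_of_nonneg_right (le_abs_self C) (sq_nonneg Y)
      _ ≤ |C| * T ^ 2 := mul_le_mul_of_nonneg_left this (abs_nonneg C)
  have e3 : 2 * B * X * Y ≤ 2 * |B| * T ^ 2 := by
    have h3 : B * X * Y ≤ |B| * (|X| * |Y|) := by
      calc B * X * Y ≤ |B * X * Y| := le_abs_self _
        _ = |B| * (|X| * |Y|) := by rw [abs_mul, abs_mul]; ring
    have h4 : |X| * |Y| ≤ T ^ 2 := by
      rw [sq]; exact mul_le_mul h1 h2 (abs_nonneg _) hT0
    have h5 : |B| * (|X| * |Y|) ≤ |B| * T ^ 2 := mul_le_mul_of_nonneg_left h4 (abs_nonneg B)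
    nlinarith
  calc A * X ^ 2 + 2 * B * X * Y + C * Y ^ 2 ≤ |A| * T ^ 2 + 2 * |B| * T ^ 2 + |C| * T ^ 2 := by
        linarith
    _ = (|A| + 2 * |B| + |C|) * R ^ 2 * (1 / e + 1) ^ 2 := by rw [hT]; ring

/-- One step at a corner of upper type. -/
lemma upper_step {F : ℝ → ℝ → ℝ} {h : ℝ → ℝ} {A B C α β ε0 S c r t σ L M : ℝ}
    (hA : A < 0) (hε0 : 0 < ε0) (hc : 0 < c) (hr : 0 < r) (hL : 0 < L)
    (HA : Above F h A B C)
    (hmono : ∀ x x', α ≤ x → x ≤ x' → x' ≤ β →
      ε0 * (x' - x) ≤ h x' - h x ∧ h x' - h x ≤ S * (x' - x))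
    (hup : ∀ x, |x - t| ≤ r → c * |x - t| ≤ h t + σ * (x - t) - h x)
    (hα : α ≤ t - r - L) (hβ : t + r ≤ β) (hd : S * r / ε0 ≤ L / 2)
    (hW : (|A| + 2 * |B| + |C|) * (2 * S * r) ^ 2 * (1 / ε0 + 1) ^ 2 ≤ -A * c * r * L / S)
    (hm : F (t - r) (h (t - r)) ≤ F t (h t)) (hp : F (t + r) (h (t + r)) ≤ F t (h t))
    (hqm : F (t - r - L) (h (t - r)) ≤ M) (hqp : F (t + r - L) (h (t + r)) ≤ M) :
    F t (h t) ≤ M + A * L ^ 2 / 4 := by
  obtain ⟨m1, m2⟩ := hmono t (t + r) (by linarith) (by linarith) hβ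
  obtain ⟨m3, m4⟩ := hmono (t - r) t (by linarith) (by linarith) (by linarith)
  have u1 := hup (t + r) (by rw [show t + r - t = r by ring, abs_of_pos hr])
  have u2 := hup (t - r) (by rw [show t - r - t = -r by ring, abs_neg, abs_of_pos hr])
  rw [show t + r - t = r by ring, abs_of_pos hr] at u1
  rw [show t - r - t = -r by ring, abs_neg, abs_of_pos hr] at u2
  rw [show t + r - t = r by ring] at m1 m2
  rw [show t - (t - r) = r by ring] at m3 m4
  set P := h (t + r) - h t with hP
  set N := h t - h (t - r) with hN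
  have hP1 : ε0 * r ≤ P := m1
  have hP2 : P ≤ (σ - c) * r := by
    have : (σ - c) * r = σ * r - c * r := by ring
    linarith
  have hN1 : (σ + c) * r ≤ N := by
    have : (σ + c) * r = σ * r + c * r := by ring
    have e : σ * -r = -(σ * r) := by ring
    linarith
  have hN2 : N ≤ S * r := m4
  have hP0 : 0 < P := lt_of_lt_of_le (by positivity) hP1
  have hσ1 : ε0 + c ≤ σ := by
    have : ε0 * r ≤ (σ - c) * r := hP1.trans hP2
    have := le_of_mul_le_mul_right this hr
    linarith
  have hσ2 : σ + c ≤ S := le_of_mul_le_mul_right (hN1.trans hN2) hr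
  have hσ0 : 0 < σ := by linarith
  have hS0 : 0 < S := by linarith
  have hN0 : 0 < N := lt_of_lt_of_le (by positivity) hN1
  have hP3 : P ≤ S * r := hP2.trans (mul_le_mul_of_nonneg_right (by linarith) hr.le)
  -- the distances
  set dp := r - P / σ with hdp
  set dm := N / σ - r with hdm
  have hcr : 0 < c * r / S := by positivity
  have hdp1 : c * r / S ≤ dp := by
    have h1 : P / σ ≤ (σ - c) * r / σ := div_le_div_of_nonneg_right hP2 hσ0.le
    have h2 : (σ - c) * r / σ = r - c * r / σ := by field_simp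
    have h3 : c * r / S ≤ c * r / σ := div_le_div_of_nonneg_left (by positivity) hσ0 (by linarith)
    linarith
  have hdm1 : c * r / S ≤ dm := by
    have h1 : (σ + c) * r / σ ≤ N / σ := div_le_div_of_nonneg_right hN1 hσ0.le
    have h2 : (σ + c) * r / σ = r + c * r / σ := by field_simp
    have h3 : c * r / S ≤ c * r / σ := div_le_div_of_nonneg_left (by positivity) hσ0 (by linarith)
    linarith
  have hSε : S * r / σ ≤ S * r / ε0 :=
    div_le_div_of_nonneg_left (by positivity) hε0 (by linarith)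
  have hrS : r ≤ S * r / ε0 := by
    rw [le_div_iff₀ hε0, mul_comm]
    exact mul_le_mul_of_nonneg_right (by linarith) hr.le
  have hPσ0 : 0 < P / σ := by positivity
  have hNσ : N / σ ≤ S * r / ε0 :=
    (div_le_div_of_nonneg_right hN2 hσ0.le).trans hSε
  have hdp2 : dp ≤ L / 2 := by linarith
  have hdm2 : dm ≤ L / 2 := by linarith
  -- the chord through the corner
  set um := t - N / σ with hum
  set up := t + P / σ with hup'
  have hchord : QChord F A B C um (h (t - r)) up (h (t + r)) := by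
    apply HA
    intro s hs0 hs1
    set x := (1 - s) * um + s * up with hx
    have hy : (1 - s) * h (t - r) + s * h (t + r) = h t + σ * (x - t) := by
      have e1 : h (t - r) = h t - N := by rw [hN]; ring
      have e2 : h (t + r) = h t + P := by rw [hP]; ring
      rw [e1, e2, hx, hum, hup']
      field_simp
      ring
    rw [hy]
    have hx1 : um ≤ x := by
      have : x - um = s * (P / σ + N / σ) := by rw [hx, hum, hup']; ring
      have h2 : 0 ≤ s * (P / σ + N / σ) := by positivity
      linarith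
    have hx2 : x ≤ up := by
      have : up - x = (1 - s) * (P / σ + N / σ) := by rw [hx, hum, hup']; ring
      have h2 : 0 ≤ (1 - s) * (P / σ + N / σ) := mul_nonneg (by linarith) (by positivity)
      linarith
    have hupr : up ≤ t + r := by
      have : 0 ≤ dp := hcr.le.trans hdp1
      linarith
    rcases le_or_gt (t - r) x with hxr | hxr
    · have hxt : |x - t| ≤ r := by rw [abs_le]; constructor <;> linarith
      have := hup x hxt
      have h2 : 0 ≤ c * |x - t| := by positivity
      linarith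
    · have h1 := (hmono x (t - r) (by linarith) hxr.le (by linarith)).1
      have h2 : 0 ≤ ε0 * (t - r - x) := mul_nonneg hε0.le (by linarith)
      have h3 : h t + σ * (um - t) = h (t - r) := by
        rw [hum]
        field_simp
        rw [hN]; ring
      have h4 : σ * (um - t) ≤ σ * (x - t) := mul_le_mul_of_nonneg_left (by linarith) hσ0.le
      linarith
  -- horizontal segments
  have hhor : ∀ x, t - r ≤ x → x ≤ t + r → ∀ d, 0 ≤ d → d ≤ L / 2 → F (x - L) (h x) ≤ M →
      F x (h x) ≤ F t (h t) →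
      F (x - d) (h x) ≤ (1 - d / L) * F t (h t) + d / L * M + d / L * (A * L ^ 2 / 2) := by
    intro x hx1 hx2 d hd0 hd2 hq hv
    have hQ : QChord F A B C x (h x) (x - L) (h x) := by
      apply HA
      intro s hs0 hs1
      have e1 : (1 - s) * h x + s * h x = h x := by ring
      have e2 : (1 - s) * x + s * (x - L) = x - s * L := by ring
      rw [e1, e2]
      have h3 : 0 ≤ s * L := by positivity
      have h4 : s * L ≤ L := mul_le_of_le_one_left hL.le hs1
      have := (hmono (x - s * L) x (by linarith) (by linarith) (by linarith)).1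
      have h5 : 0 ≤ ε0 * (x - (x - s * L)) := mul_nonneg hε0.le (by linarith)
      linarith
    have hθ0 : 0 ≤ d / L := by positivity
    have hθ1 : d / L ≤ 1 / 2 := by rw [div_le_iff₀ hL]; linarith
    have h1 := hQ (d / L) hθ0 (by linarith)
    have e1 : (1 - d / L) * h x + d / L * h x = h x := by ring
    have e2 : (1 - d / L) * x + d / L * (x - L) = x - d := by field_simp; ring
    rw [e1, e2] at h1
    have e3 : A * (x - L - x) ^ 2 + 2 * B * (x - L - x) * (h x - h x) + C * (h x - h x) ^ 2 =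
        A * L ^ 2 := by ring
    rw [e3] at h1
    have h2 : (1 - d / L) * F x (h x) ≤ (1 - d / L) * F t (h t) :=
      mul_le_mul_of_nonneg_left hv (by linarith)
    have h3 : d / L * F (x - L) (h x) ≤ d / L * M := mul_le_mul_of_nonneg_left hq hθ0
    have h4 : d / L * (1 - d / L) * (A * L ^ 2) ≤ d / L * (A * L ^ 2 / 2) := by
      have h5 : A * L ^ 2 ≤ 0 := mul_nonpos_of_nonpos_of_nonneg hA.le (sq_nonneg L)
      have h6 : (1 - d / L) * (A * L ^ 2) ≤ A * L ^ 2 / 2 := by
        have := mul_le_mul_of_nonpos_right (by linarith : (1 : ℝ) / 2 ≤ 1 - d / L) h5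
        linarith
      calc d / L * (1 - d / L) * (A * L ^ 2) = d / L * ((1 - d / L) * (A * L ^ 2)) := by ring
        _ ≤ d / L * (A * L ^ 2 / 2) := mul_le_mul_of_nonneg_left h6 hθ0
    linarith
  have h1 := hhor (t - r) le_rfl (by linarith) dm (hcr.le.trans hdm1) hdm2 hqm hm
  have h2 := hhor (t + r) (by linarith) le_rfl dp (hcr.le.trans hdp1) hdp2 hqp hp
  have eum : t - r - dm = um := by rw [hdm, hum]; ring
  have eup : t + r - dp = up := by rw [hdp, hup']; ring
  rw [eum] at h1
  rw [eup] at h2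
  -- the chord inequality
  set s := N / (N + P) with hs
  have hNP : 0 < N + P := by linarith
  have hs0 : 0 ≤ s := by positivity
  have hs1 : s ≤ 1 := by rw [hs, div_le_one hNP]; linarith
  have h3 := hchord s hs0 hs1
  have e1 : (1 - s) * um + s * up = t := by
    rw [hs, hum, hup']; field_simp; ring
  have e2 : (1 - s) * h (t - r) + s * h (t + r) = h t := by
    have e1 : h (t - r) = h t - N := by rw [hN]; ring
    have e2 : h (t + r) = h t + P := by rw [hP]; ring
    rw [e1, e2, hs]; field_simp; ring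
  rw [e1, e2] at h3
  have hQb : A * (up - um) ^ 2 + 2 * B * (up - um) * (h (t + r) - h (t - r)) +
      C * (h (t + r) - h (t - r)) ^ 2 ≤ -A * c * r * L / S := by
    refine (quad_bound A B C _ _ (2 * S * r) ε0 (by positivity) hε0 ?_ ?_).trans hW
    · have e3 : up - um = (N + P) / σ := by rw [hum, hup']; ring
      rw [e3, abs_of_pos (by positivity)]
      calc (N + P) / σ ≤ (2 * S * r) / σ := div_le_div_of_nonneg_right (by linarith) hσ0.le
        _ ≤ (2 * S * r) / ε0 := div_le_div_of_nonneg_left (by positivity) hε0 (by linarith)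
    · have e3 : h (t + r) - h (t - r) = N + P := by rw [hN, hP]; ring
      rw [e3, abs_of_pos hNP]
      linarith
  by_contra hcon
  push Not at hcon
  set X := M - F t (h t) + A * L ^ 2 / 2 with hX
  have hXneg : X < A * L ^ 2 / 4 := by linarith
  have hAL : A * L ^ 2 / 4 < 0 := by
    have : 0 < L ^ 2 := by positivity
    have := mul_neg_of_neg_of_pos hA this
    linarith
  set θ := c * r / S / L with hθ
  have hθ0 : 0 < θ := by positivity
  have k1 : F um (h (t - r)) ≤ F t (h t) + θ * X := by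
    have h4 : θ ≤ dm / L := div_le_div_of_nonneg_right hdm1 hL.le
    have h5 : dm / L * X ≤ θ * X := mul_le_mul_of_nonpos_right h4 (by linarith)
    have h6 : (1 - dm / L) * F t (h t) + dm / L * M + dm / L * (A * L ^ 2 / 2) =
        F t (h t) + dm / L * X := by rw [hX]; ring
    linarith
  have k2 : F up (h (t + r)) ≤ F t (h t) + θ * X := by
    have h4 : θ ≤ dp / L := div_le_div_of_nonneg_right hdp1 hL.le
    have h5 : dp / L * X ≤ θ * X := mul_le_mul_of_nonpos_right h4 (by linarith)
    have h6 : (1 - dp / L) * F t (h t) + dp / L * M + dp / L * (A * L ^ 2 / 2) =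
        F t (h t) + dp / L * X := by rw [hX]; ring
    linarith
  have k3 : (1 - s) * F um (h (t - r)) + s * F up (h (t + r)) ≤ F t (h t) + θ * X := by
    have h4 := mul_le_mul_of_nonneg_left k1 (by linarith : 0 ≤ 1 - s)
    have h5 := mul_le_mul_of_nonneg_left k2 hs0
    calc (1 - s) * F um (h (t - r)) + s * F up (h (t + r)) ≤
        (1 - s) * (F t (h t) + θ * X) + s * (F t (h t) + θ * X) := by linarith
      _ = F t (h t) + θ * X := by ring
  have hW0 : 0 ≤ -A * c * r * L / S := by
    have : 0 < -A := by linarith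
    positivity
  have k4 : s * (1 - s) * (A * (up - um) ^ 2 + 2 * B * (up - um) * (h (t + r) - h (t - r)) +
      C * (h (t + r) - h (t - r)) ^ 2) ≤ (-A * c * r * L / S) / 4 := by
    have h4 : 0 ≤ s * (1 - s) := mul_nonneg hs0 (by linarith)
    have h5 : s * (1 - s) ≤ 1 / 4 := mul_one_sub_le s
    calc _ ≤ s * (1 - s) * (-A * c * r * L / S) := mul_le_mul_of_nonneg_left hQb h4
      _ ≤ 1 / 4 * (-A * c * r * L / S) := mul_le_mul_of_nonneg_right h5 hW0
      _ = (-A * c * r * L / S) / 4 := by ring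
  have k5 : 0 ≤ θ * X + (-A * c * r * L / S) / 4 := by linarith
  have k6 : θ * X < θ * (A * L ^ 2 / 4) := mul_lt_mul_of_pos_left hXneg hθ0
  have k7 : θ * (A * L ^ 2 / 4) + (-A * c * r * L / S) / 4 = 0 := by
    rw [hθ]; field_simp; ring
  linarith

end Q92.CRem
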